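import Mathlib

/-!
Statements of the jobs of project R3 (mean squares of `L(1/2+it, χψ)` over cosets of characters
mod `p^m`, `χ` primitive mod `p^ν`, with `m / ν` below one third).
-/

set_option autoImplicit false

namespace Pool.Agent.Y766.R3

open Finset Polynomial

/-- `exp(2πix)` -/
noncomputable def eu (x : ℝ) : ℂ := Complex.exp (2 * Real.pi * Complex.I * x)

/-- WEY: Weyl's inequality in degree five, on initial segments `J ≤ K`. -/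
def S_WEY : Prop := ∀ ε : ℝ, 0 < ε → ∃ C : ℝ, 0 < C ∧ ∀ (K q : ℕ) (a : ℤ), 1 ≤ K → K ≤ q →
  q ≤ K ^ 4 → Int.gcd a q = 1 → ∀ P : ℝ[X], P.natDegree ≤ 5 → P.coeff 5 = (a : ℝ) / q →
  ∀ J ≤ K, ‖∑ k ∈ range J, eu (P.eval (k : ℝ))‖ ≤ C * (K : ℝ) ^ (15 / 16 + ε)

/-- the product `χ(n + P) conj χ(n)` -/
noncomputable def FF {q : ℕ} (χ : DirichletCharacter ℂ q) (P n : ℤ) : ℂ :=
  χ ((n + P : ℤ) : ZMod q) * (starRingEnd ℂ) (χ (n : ZMod q))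

/-- PHI: the product `χ(n + P) conj χ(n)`, `P = p^m l`, is `Φ(l / (2n + P))` with `Φ` almost
an additive character of `ZMod (p^r)`, `r = ν - m`. -/
def S_PHI : Prop := ∀ (p ν m : ℕ) [NeZero (p ^ (ν - m))], p.Prime → p ≠ 2 → 1 ≤ m → m < ν →
  ∀ χ : DirichletCharacter ℂ (p ^ ν), χ.IsPrimitive →
  ∃ Φ : ZMod (p ^ (ν - m)) → ℂ, (∀ y, ‖Φ y‖ = 1) ∧
    (∀ l n : ℤ, FF χ ((p : ℤ) ^ m * l) n = if (p : ℤ) ∣ n then 0 else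
      Φ ((l : ZMod (p ^ (ν - m))) * ((2 * n + (p : ℤ) ^ m * l : ℤ) : ZMod (p ^ (ν - m)))⁻¹)) ∧
    (∀ u : ℕ, ν ≤ u + 3 * m → u < ν - m → ∃ A : ZMod (p ^ (ν - m)), IsUnit A ∧
      ∀ y z : ZMod (p ^ (ν - m)), Φ (y + (p : ZMod (p ^ (ν - m))) ^ u * z) =
        Φ y * ZMod.stdAddChar (A * ((p : ZMod (p ^ (ν - m))) ^ u * z)))

/-- the complete sum `∑_{y unit} Ψ(y) e((A y + B y⁻¹)/p^r)` -/
noncomputable def KL {R : ℕ} [NeZero R] (Ψ : ZMod R → ℂ) (A B : ZMod R) : ℂ :=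
  ∑ y : (ZMod R)ˣ, Ψ y * ZMod.stdAddChar (A * (y : ZMod R) + B * ((y⁻¹ : (ZMod R)ˣ) : ZMod R))

/-- KLO: stationary phase for these sums, with the dependence on `h` in a progression
`h = h₀ + p^E k` made explicit: a polynomial phase of degree 5. -/
def S_KLO : Prop := ∀ (p r u : ℕ) [NeZero (p ^ r)], p.Prime → p ≠ 2 → 2 ≤ r → 2 * u ≤ r + 1 →
  ∀ (Ψ : ZMod (p ^ r) → ℂ), (∀ y, ‖Ψ y‖ = 1) →
  (∀ y z : ZMod (p ^ r), Ψ (y + (p : ZMod (p ^ r)) ^ u * z) = Ψ y) →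
  ∀ A L : ZMod (p ^ r), IsUnit A → IsUnit L →
  (∀ h : ℤ, ‖KL Ψ A (L * h)‖ ≤ 2 * (p : ℝ) ^ ((r + 1) / 2)) ∧
  (∀ h : ℤ, (p : ℤ) ∣ h → KL Ψ A (L * h) = 0) ∧
  (∀ (E : ℕ) (h₀ : ℤ), 1 ≤ E → u ≤ E → r ≤ 6 * E → ¬ (p : ℤ) ∣ h₀ →
    ∃ (n : ℕ) (ρ : Fin n → ℂ) (b : Fin n → ℤ) (Q : Fin n → ℝ[X]), n ≤ 2 * p ^ ((r + 1) / 2) ∧
      (∀ i, ‖ρ i‖ = 1 ∧ ¬ (p : ℤ) ∣ b i ∧ (Q i).natDegree ≤ 5 ∧
        (Q i).coeff 5 = 28 * (b i : ℝ) * (p : ℝ) ^ (5 * E) / (p : ℝ) ^ r) ∧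
      ∀ k : ℤ, KL Ψ A (L * ((h₀ + (p : ℤ) ^ E * k : ℤ) : ZMod (p ^ r))) =
        ∑ i, ρ i * eu ((Q i).eval (k : ℝ)))

end Pool.Agent.Y766.R3
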