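import Pool.Agent.Y766.R3.TB

/-!
Incomplete sums of `χ(n + P) conj χ(n)`: the bound.
-/

set_option autoImplicit false

namespace Pool.Agent.Y766.R3

open Finset
open Pool.Agent.H442R2 Pool.Agent.H442R2.TSM
open Pool.Agent.Y766

lemma FF_norm {q : ℕ} (χ : DirichletCharacter ℂ q) (P n : ℤ) : ‖FF χ P n‖ ≤ 1 := by
  unfold FF
  rw [norm_mul, Complex.norm_conj]
  exact mul_le_one₀ (χ.norm_le_one _) (norm_nonneg _) (χ.norm_le_one _)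

lemma T_triv {q : ℕ} (χ : DirichletCharacter ℂ q) (P : ℤ) {g : ℝ → ℂ} {B : ℝ} (hg : Good B g)
    {N : ℝ} (hN : 0 < N) (δ : ℝ) :
    ‖∑ n ∈ Icc 1 ⌊4 * N⌋₊, FF χ P (n : ℤ) *
      (g ((n : ℝ) / N + δ) * (starRingEnd ℂ) (g ((n : ℝ) / N)))‖ ≤ 4 * N * B ^ 2 := by
  have hB : 0 ≤ B := (norm_nonneg _).trans (hg.b0 0)
  refine (norm_sum_le _ _).trans ?_
  calc _ ≤ ∑ n ∈ Icc 1 ⌊4 * N⌋₊, B ^ 2 := by
        refine sum_le_sum fun n _ => ?_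
        rw [norm_mul, norm_mul, Complex.norm_conj]
        calc _ ≤ 1 * (B * B) := by
              refine mul_le_mul (FF_norm χ P n) ?_ (by positivity) zero_le_one
              exact mul_le_mul (hg.b0 _) (hg.b0 _) (norm_nonneg _) hB
          _ = B ^ 2 := by ring
    _ = (⌊4 * N⌋₊ : ℝ) * B ^ 2 := by
        rw [sum_const, Nat.card_Icc, Nat.add_sub_cancel, nsmul_eq_mul]
    _ ≤ _ := by
        have := Nat.floor_le (by positivity : (0 : ℝ) ≤ 4 * N)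
        gcongr

theorem T_bound (hW : S_WEY) (hPhi : S_PHI) (hK : S_KLO) {p : ℕ} (hp : p.Prime) (hp2 : p ≠ 2)
    {ε : ℝ} (hε : 0 < ε) : ∃ C : ℝ, 0 < C ∧ ∀ (ν m : ℕ), 1 ≤ m → m < ν →
    46 * ν ≤ 139 * m → ∀ χ : DirichletCharacter ℂ (p ^ ν), χ.IsPrimitive →
    ∀ l : ℤ, ¬ (p : ℤ) ∣ l → ∀ (g : ℝ → ℂ) (B : ℝ), Good B g → ∀ N δ : ℝ, 0 < N →
    N ≤ ((p : ℝ) ^ ν) ^ (1 / 2 + ε) →
    ‖∑ n ∈ Icc 1 ⌊4 * N⌋₊, FF χ ((p : ℤ) ^ m * l) (n : ℤ) *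
      (g ((n : ℝ) / N + δ) * (starRingEnd ℂ) (g ((n : ℝ) / N)))‖ ≤
      C * B ^ 2 * (p : ℝ) ^ m * (((p : ℝ) ^ ν) ^ ε) ^ 3 := by
  obtain ⟨CW, hCW, hW'⟩ := hW ε hε
  obtain ⟨C1, hC1, hpoi⟩ := poi_main
  have hp0 : (0 : ℝ) < p := by exact_mod_cast hp.pos
  have hp1 : (1 : ℝ) ≤ p := by exact_mod_cast hp.one_le
  refine ⟨4 + 4 * (p : ℝ) ^ 50 + 32 * C1 + 32 * C1 * CW * p, by positivity, ?_⟩
  intro ν m hm hmν h46 χ hχ l hl g B hg N δ hN hNle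
  have hB : 0 ≤ B := (norm_nonneg _).trans (hg.b0 0)
  set q : ℝ := (p : ℝ) ^ ν with hq
  have hq1 : 1 ≤ q := one_le_pow₀ hp1
  have hq0 : 0 < q := by linarith
  set D : ℝ := q ^ ε with hD
  have hD1 : 1 ≤ D := Real.one_le_rpow hq1 hε.le
  have hD0 : 0 < D := by linarith
  have hN2 : N ≤ q ^ (1 / 2 : ℝ) * D := by
    rw [hD, ← Real.rpow_add hq0]; exact hNle
  have hqhalf : q ^ (1 / 2 : ℝ) = (p : ℝ) ^ ((ν : ℝ) / 2) := by
    rw [hq, ← Real.rpow_natCast, ← Real.rpow_mul hp0.le]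
    congr 1
    ring
  have hD3 : D ≤ D ^ 3 := by nlinarith [sq_nonneg D, mul_pos hD0 hD0]
  have htriv := T_triv χ ((p : ℤ) ^ m * l) hg hN δ
  have hpm1 : 1 ≤ (p : ℝ) ^ m := one_le_pow₀ hp1
  set RR : ℝ := B ^ 2 * (p : ℝ) ^ m * D ^ 3 with hRR
  have hRR0 : 0 ≤ RR := by positivity
  have hfin : ∀ c : ℝ, c ≤ 4 + 4 * (p : ℝ) ^ 50 + 32 * C1 + 32 * C1 * CW * p →
      c * RR ≤ (4 + 4 * (p : ℝ) ^ 50 + 32 * C1 + 32 * C1 * CW * p) * B ^ 2 * (p : ℝ) ^ m * D ^ 3 := by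
    intro c hc
    calc c * RR ≤ (4 + 4 * (p : ℝ) ^ 50 + 32 * C1 + 32 * C1 * CW * p) * RR := by gcongr
      _ = _ := by rw [hRR]; ring
  have hp50 : (0 : ℝ) < (p : ℝ) ^ 50 := by positivity
  -- case A
  rcases le_or_gt ν (2 * m) with hA | hA
  · refine le_trans ?_ (hfin 4 (by
      have : 0 < C1 * CW * p := by positivity
      linarith))
    have h1 : q ^ (1 / 2 : ℝ) ≤ (p : ℝ) ^ m := by
      rw [hqhalf, ← Real.rpow_natCast]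
      refine Real.rpow_le_rpow_of_exponent_le hp1 ?_
      have : (ν : ℝ) ≤ 2 * m := by exact_mod_cast hA
      linarith
    calc _ ≤ 4 * N * B ^ 2 := htriv
      _ ≤ 4 * ((p : ℝ) ^ m * D ^ 3) * B ^ 2 := by
          gcongr
          exact hN2.trans (mul_le_mul h1 hD3 hD0.le (by positivity))
      _ = 4 * RR := by rw [hRR]; ring
  -- case B
  rcases lt_or_ge ν 100 with hB' | hB'
  · refine le_trans ?_ (hfin (4 * (p : ℝ) ^ 50) (by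
      have : 0 < C1 * CW * p := by positivity
      linarith))
    have h1 : q ^ (1 / 2 : ℝ) ≤ (p : ℝ) ^ 50 := by
      rw [hqhalf, ← Real.rpow_natCast]
      refine Real.rpow_le_rpow_of_exponent_le hp1 ?_
      have : (ν : ℝ) ≤ 100 := by exact_mod_cast hB'.le
      push_cast
      linarith
    calc _ ≤ 4 * N * B ^ 2 := htriv
      _ ≤ 4 * ((p : ℝ) ^ 50 * D ^ 3) * B ^ 2 := by
          gcongr
          exact hN2.trans (mul_le_mul h1 hD3 hD0.le (by positivity))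
      _ = 4 * (p : ℝ) ^ 50 * (B ^ 2 * 1 * D ^ 3) := by ring
      _ ≤ 4 * (p : ℝ) ^ 50 * RR := by rw [hRR]; gcongr
  haveI : NeZero p := ⟨hp.ne_zero⟩
  haveI : NeZero (p ^ (ν - m)) := ⟨pow_ne_zero _ hp.ne_zero⟩
  have hgp := good_prod hg δ
  -- case C
  rcases le_or_gt ν (3 * m) with hC | hC
  · refine le_trans ?_ (hfin (32 * C1) (by
      have : 0 < C1 * CW * p := by positivity
      linarith))
    obtain ⟨hper, Ψ, A, L, d, hΨ1, hΨ2, hA', hL, hFH⟩ :=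
      get_data hPhi (u := 0) hp hp2 hm hmν (by omega) (by omega) hχ hl
    obtain ⟨k1, -, -⟩ := hK p (ν - m) 0 hp hp2 (by omega) (by omega) Ψ hΨ1 hΨ2 A L hA' hL
    have hFHb : ∀ j : ℤ, ‖FH (p ^ (ν - m)) (FF χ ((p : ℤ) ^ m * l)) j‖ ≤ 2 * (p : ℝ) ^ m := by
      intro j
      rw [hFH, norm_mul, e_norm, one_mul]
      refine (k1 j).trans ?_
      have : (p : ℝ) ^ ((ν - m + 1) / 2) ≤ (p : ℝ) ^ m := pow_le_pow_right₀ hp1 (by omega)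
      linarith
    have h1 := hpoi (p ^ (ν - m)) (FF χ ((p : ℤ) ^ m * l)) hper 1 1 one_pos one_pos (2 * (p : ℝ) ^ m)
      (fun h J hJ => by
        interval_cases J
        · simp
        · rw [sum_range_one]; exact hFHb _) _ _ hgp N hN
    refine h1.trans ?_
    have h2 : N / ((p ^ (ν - m) : ℕ) : ℝ) ≤ D := by
      push_cast
      rw [div_le_iff₀ (by positivity)]
      refine hN2.trans ?_
      rw [mul_comm]
      refine mul_le_mul_of_nonneg_left ?_ hD0.le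
      rw [hqhalf, ← Real.rpow_natCast]
      refine Real.rpow_le_rpow_of_exponent_le hp1 ?_
      have : (ν : ℝ) ≤ 2 * (ν - m : ℕ) := by exact_mod_cast (by omega : ν ≤ 2 * (ν - m))
      linarith
    have h3 : (1 + ((1 : ℕ) : ℝ) * ((1 : ℕ) : ℝ) * N / ((p ^ (ν - m) : ℕ) : ℝ)) ^ 2 ≤ 4 * D ^ 2 := by
      have h4 : 1 + ((1 : ℕ) : ℝ) * ((1 : ℕ) : ℝ) * N / ((p ^ (ν - m) : ℕ) : ℝ) ≤ 2 * D := by
        rw [Nat.cast_one, one_mul, one_mul]; linarith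
      calc _ ≤ (2 * D) ^ 2 := by gcongr
        _ = _ := by ring
    calc _ ≤ C1 * (4 * B ^ 2) * (2 * (p : ℝ) ^ m / ((1 : ℕ) : ℝ)) * (4 * D ^ 2) := by gcongr
      _ = 32 * C1 * (B ^ 2 * (p : ℝ) ^ m * D ^ 2) := by push_cast; ring
      _ ≤ 32 * C1 * RR := by
          rw [hRR]
          have : D ^ 2 ≤ D ^ 3 := pow_le_pow_right₀ hD1 (by norm_num)
          gcongr
  -- case D
  refine le_trans ?_ (hfin (32 * C1 * CW * p) (by linarith))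
  obtain ⟨hper, -⟩ := get_data hPhi (u := ν - 3 * m) hp hp2 hm hmν (by omega) (by omega) hχ hl
  set E : ℕ := (ν - m + 5) / 6 with hE
  set κ : ℕ := ν - m - E - (ν + 1) / 2 with hκ
  have hblock := fun (h : ℤ) (J : ℕ) (hJ : J ≤ p ^ κ) =>
    FH_blocks hPhi hK (E := E) (κ := κ) hp hp2 hCW hW' hm hC (by omega) (by omega) (by omega) (by omega)
    (by omega) (by omega) hχ hl h J hJ
  have h1 := hpoi (p ^ (ν - m)) (FF χ ((p : ℤ) ^ m * l)) hper (p ^ E) (p ^ κ) (pow_pos hp.pos _)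
    (pow_pos hp.pos _) _ hblock _ _ hgp N hN
  refine h1.trans ?_
  have hX : ((p ^ κ : ℕ) : ℝ) * ((p ^ E : ℕ) : ℝ) * N / ((p ^ (ν - m) : ℕ) : ℝ) ≤ D := by
    push_cast
    have e1 : (p : ℝ) ^ (ν - m) = (p : ℝ) ^ κ * (p : ℝ) ^ E * (p : ℝ) ^ ((ν + 1) / 2) := by
      rw [← pow_add, ← pow_add]; congr 1; omega
    rw [e1, div_le_iff₀ (by positivity)]
    have h2 : N ≤ D * (p : ℝ) ^ ((ν + 1) / 2) := by
      refine hN2.trans ?_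
      rw [mul_comm]
      refine mul_le_mul_of_nonneg_left ?_ hD0.le
      rw [hqhalf, ← Real.rpow_natCast]
      refine Real.rpow_le_rpow_of_exponent_le hp1 ?_
      have : (ν : ℝ) ≤ 2 * ((ν + 1) / 2 : ℕ) := by exact_mod_cast (by omega : ν ≤ 2 * ((ν + 1) / 2))
      linarith
    calc (p : ℝ) ^ κ * (p : ℝ) ^ E * N ≤ (p : ℝ) ^ κ * (p : ℝ) ^ E * (D * (p : ℝ) ^ ((ν + 1) / 2)) := by
          gcongr
      _ = _ := by ring
  have h3 : (1 + ((p ^ κ : ℕ) : ℝ) * ((p ^ E : ℕ) : ℝ) * N / ((p ^ (ν - m) : ℕ) : ℝ)) ^ 2 ≤ 4 * D ^ 2 := by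
    have h4 : 1 + ((p ^ κ : ℕ) : ℝ) * ((p ^ E : ℕ) : ℝ) * N / ((p ^ (ν - m) : ℕ) : ℝ) ≤ 2 * D := by
      linarith
    calc _ ≤ (2 * D) ^ 2 := by gcongr
      _ = _ := by ring
  have h5 : 2 * (p : ℝ) ^ ((ν - m + 1) / 2) * (CW * ((p ^ κ : ℕ) : ℝ) ^ (15 / 16 + ε)) /
      ((p ^ κ : ℕ) : ℝ) ≤ 2 * CW * (p * (p : ℝ) ^ m) * D := by
    push_cast
    have e2 : ((p : ℝ) ^ κ) ^ (15 / 16 + ε) / (p : ℝ) ^ κ = (p : ℝ) ^ (-(κ : ℝ) / 16) * ((p : ℝ) ^ κ) ^ ε := by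
      have hk0 : (0 : ℝ) < (p : ℝ) ^ κ := by positivity
      rw [Real.rpow_add hk0, div_eq_iff hk0.ne']
      have e3 : (p : ℝ) ^ (-(κ : ℝ) / 16) = ((p : ℝ) ^ κ) ^ (-(1 / 16) : ℝ) := by
        rw [← Real.rpow_natCast, ← Real.rpow_mul hp0.le]; congr 1; ring
      have e4 : ((p : ℝ) ^ κ) ^ (-(1 / 16) : ℝ) * (p : ℝ) ^ κ = ((p : ℝ) ^ κ) ^ (15 / 16 : ℝ) := by
        nth_rewrite 2 [← Real.rpow_one ((p : ℝ) ^ κ)]
        rw [← Real.rpow_add hk0]; norm_num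
      rw [e3, mul_right_comm, e4]
    have e5 : ((p : ℝ) ^ κ) ^ ε ≤ D := by
      rw [hD, hq]
      exact Real.rpow_le_rpow (by positivity) (pow_le_pow_right₀ hp1 (by omega)) hε.le
    have e6 : (p : ℝ) ^ ((ν - m + 1) / 2) * (p : ℝ) ^ (-(κ : ℝ) / 16) ≤ p * (p : ℝ) ^ m := by
      have : (p : ℝ) * (p : ℝ) ^ m = (p : ℝ) ^ ((1 + m : ℕ) : ℝ) := by
        rw [Real.rpow_natCast, pow_add, pow_one]
      rw [this, ← Real.rpow_natCast, ← Real.rpow_add hp0]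
      refine Real.rpow_le_rpow_of_exponent_le hp1 ?_
      have h6 : 16 * (((ν - m + 1) / 2 : ℕ) : ℝ) ≤ 16 * m + κ + 16 := by
        exact_mod_cast (by omega : 16 * ((ν - m + 1) / 2) ≤ 16 * m + κ + 16)
      push_cast
      linarith
    calc _ = 2 * CW * ((p : ℝ) ^ ((ν - m + 1) / 2) * (((p : ℝ) ^ κ) ^ (15 / 16 + ε) / (p : ℝ) ^ κ)) := by
          ring
      _ = 2 * CW * ((p : ℝ) ^ ((ν - m + 1) / 2) * (p : ℝ) ^ (-(κ : ℝ) / 16)) * ((p : ℝ) ^ κ) ^ ε := by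
          rw [e2]; ring
      _ ≤ 2 * CW * (p * (p : ℝ) ^ m) * D := by gcongr
  calc _ ≤ C1 * (4 * B ^ 2) * (2 * CW * (p * (p : ℝ) ^ m) * D) * (4 * D ^ 2) := by gcongr
    _ = 32 * C1 * CW * p * RR := by rw [hRR]; ring

end Pool.Agent.Y766.R3
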