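import Mathlib

/-!
Orthogonality and the opening of the square.
-/

set_option autoImplicit false

namespace Pool.Agent.Y766.R3

open Finset

/-- orthogonality over all characters mod `d` -/
lemma orth {d : ℕ} [NeZero d] (s : Finset ℕ) (a : ℕ → ℂ)
    (ha : ∀ n ∈ s, ¬ IsUnit (n : ZMod d) → a n = 0) :
    ∑ θ : DirichletCharacter ℂ d, ‖∑ n ∈ s, θ (n : ZMod d) * a n‖ ^ 2 ≤
      d * ‖∑ n ∈ s, ∑ k ∈ s, if (n : ZMod d) = (k : ZMod d) then a n * (starRingEnd ℂ) (a k) else 0‖ := by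
  classical
  have key : ((∑ θ : DirichletCharacter ℂ d, ‖∑ n ∈ s, θ (n : ZMod d) * a n‖ ^ 2 : ℝ) : ℂ) =
      (Nat.totient d : ℂ) * ∑ n ∈ s, ∑ k ∈ s,
        if (n : ZMod d) = (k : ZMod d) then a n * (starRingEnd ℂ) (a k) else 0 := by
    push_cast
    simp_rw [← Complex.mul_conj', map_sum, sum_mul_sum, map_mul]
    rw [sum_comm, mul_sum]
    refine sum_congr rfl fun n hn => ?_
    rw [sum_comm, mul_sum]
    refine sum_congr rfl fun k hk => ?_
    by_cases hnu : IsUnit (n : ZMod d)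
    · by_cases hku : IsUnit (k : ZMod d)
      · have h1 := DirichletCharacter.sum_char_inv_mul_char_eq ℂ hku (n : ZMod d)
        have e1 : ∀ θ : DirichletCharacter ℂ d, θ (n : ZMod d) * a n *
            ((starRingEnd ℂ) (θ (k : ZMod d)) * (starRingEnd ℂ) (a k)) =
            (θ ((k : ZMod d)⁻¹) * θ (n : ZMod d)) * (a n * (starRingEnd ℂ) (a k)) := by
          intro θ
          have e2 : (starRingEnd ℂ) (θ (k : ZMod d)) = θ ((k : ZMod d)⁻¹) := by
            have h3 := MulChar.star_apply' θ (k : ZMod d)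
            rw [starRingEnd_apply, h3, MulChar.inv_apply]
            obtain ⟨u, hu⟩ := hku
            rw [← hu, Ring.inverse_unit, ZMod.inv_coe_unit]
          rw [e2]
          ring
        simp_rw [e1]
        rw [← sum_mul, h1]
        by_cases hnk : (k : ZMod d) = (n : ZMod d)
        · rw [if_pos hnk, if_pos hnk.symm]
        · rw [if_neg hnk, if_neg (fun h => hnk h.symm), zero_mul, mul_zero]
      · rw [ha k hk hku]
        simp
    · rw [ha n hn hnu]
      simp
  have h0 : 0 ≤ ∑ θ : DirichletCharacter ℂ d, ‖∑ n ∈ s, θ (n : ZMod d) * a n‖ ^ 2 :=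
    sum_nonneg fun θ _ => by positivity
  have h1 : ∑ θ : DirichletCharacter ℂ d, ‖∑ n ∈ s, θ (n : ZMod d) * a n‖ ^ 2 =
      ‖((∑ θ : DirichletCharacter ℂ d, ‖∑ n ∈ s, θ (n : ZMod d) * a n‖ ^ 2 : ℝ) : ℂ)‖ := by
    rw [Complex.norm_real, Real.norm_eq_abs, abs_of_nonneg h0]
  rw [h1, key, norm_mul, Complex.norm_natCast]
  have h2 : (Nat.totient d : ℝ) ≤ d := by exact_mod_cast Nat.totient_le d
  gcongr

/-- the congruence double sum in terms of the differences -/
lemma cong_sum {d M : ℕ} (hd : 0 < d) (a : ℕ → ℂ) (ha : ∀ n, M < n → a n = 0) :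
    ‖∑ n ∈ Icc 1 M, ∑ k ∈ Icc 1 M,
      if (n : ZMod d) = (k : ZMod d) then a n * (starRingEnd ℂ) (a k) else 0‖ ≤
    ∑ n ∈ Icc 1 M, ‖a n‖ ^ 2 +
      2 * ∑ l ∈ Icc 1 (M / d), ‖∑ n ∈ Icc 1 M, a (n + d * l) * (starRingEnd ℂ) (a n)‖ := by
  classical
  -- the part n > k
  have part : ∀ f : ℕ → ℕ → ℂ, (∀ n k, M < n → f n k = 0) →
      ∑ k ∈ Icc 1 M, ∑ n ∈ Icc 1 M, (if (n : ZMod d) = (k : ZMod d) ∧ k < n then f n k else 0) =
      ∑ l ∈ Icc 1 (M / d), ∑ k ∈ Icc 1 M, f (k + d * l) k := by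
    intro f hf
    rw [sum_comm (s := Icc 1 (M / d))]
    refine sum_congr rfl fun k hk => ?_
    rw [mem_Icc] at hk
    rw [← sum_filter]
    symm
    refine sum_bij_ne_zero (fun l _ _ => k + d * l) ?_ ?_ ?_ ?_
    · intro l hl hne
      rw [mem_Icc] at hl
      have h1 : k + d * l ≤ M := by
        by_contra h
        exact hne (hf _ _ (by omega))
      have h2 : 0 < d * l := Nat.mul_pos hd (by omega)
      rw [mem_filter, mem_Icc]
      refine ⟨⟨by omega, h1⟩, ?_, by omega⟩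
      push_cast
      simp
    · intro l _ _ l' _ _ h
      have : d * l = d * l' := by
        have h' : k + d * l = k + d * l' := h
        omega
      exact Nat.eq_of_mul_eq_mul_left hd this
    · intro n hn hne
      rw [mem_filter, mem_Icc] at hn
      obtain ⟨⟨hn1, hn2⟩, hn3, hn4⟩ := hn
      have h3 : (k : ℤ) ≡ (n : ℤ) [ZMOD d] := by
        rw [← ZMod.intCast_eq_intCast_iff]
        push_cast
        exact hn3.symm
      have h4 : d ∣ n - k := by
        have := h3.dvd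
        have h5 : ((n - k : ℕ) : ℤ) = (n : ℤ) - k := by push_cast [hn4.le]; ring
        rw [← h5] at this
        exact_mod_cast this
      obtain ⟨l, hl⟩ := h4
      have h6 : 1 ≤ l := by
        rcases Nat.eq_zero_or_pos l with h | h
        · subst h; omega
        · exact h
      have e : k + d * l = n := by omega
      refine ⟨l, ?_, ?_, e⟩
      · rw [mem_Icc]
        refine ⟨h6, (Nat.le_div_iff_mul_le hd).2 ?_⟩
        rw [mul_comm]
        omega
      · rw [e]; exact hne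
    · intro l _ _
      rfl
  have hsplit : ∑ n ∈ Icc 1 M, ∑ k ∈ Icc 1 M,
      (if (n : ZMod d) = (k : ZMod d) then a n * (starRingEnd ℂ) (a k) else 0) =
      ∑ n ∈ Icc 1 M, a n * (starRingEnd ℂ) (a n) +
      (∑ k ∈ Icc 1 M, ∑ n ∈ Icc 1 M,
        (if (n : ZMod d) = (k : ZMod d) ∧ k < n then a n * (starRingEnd ℂ) (a k) else 0)) +
      (∑ n ∈ Icc 1 M, ∑ k ∈ Icc 1 M,
        (if (k : ZMod d) = (n : ZMod d) ∧ n < k then a n * (starRingEnd ℂ) (a k) else 0)) := by
    rw [sum_comm (s := Icc 1 M) (t := Icc 1 M) (f := fun k n => if (n : ZMod d) = (k : ZMod d) ∧ k < n then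
      a n * (starRingEnd ℂ) (a k) else 0), ← sum_add_distrib, ← sum_add_distrib]
    refine sum_congr rfl fun n hn => ?_
    have e1 : a n * (starRingEnd ℂ) (a n) = ∑ k ∈ Icc 1 M,
        (if k = n then a n * (starRingEnd ℂ) (a k) else 0) := by
      rw [sum_ite_eq' (Icc 1 M) n]
      rw [if_pos hn]
    rw [e1, ← sum_add_distrib, ← sum_add_distrib]
    refine sum_congr rfl fun k _ => ?_
    rcases lt_trichotomy k n with h | h | h
    · rw [if_neg h.ne, zero_add]
      have h2 : ¬ ((k : ZMod d) = (n : ZMod d) ∧ n < k) := fun h3 => by omega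
      rw [if_neg h2, add_zero]
      by_cases hc : (n : ZMod d) = (k : ZMod d)
      · rw [if_pos hc, if_pos ⟨hc, h⟩]
      · rw [if_neg hc, if_neg (fun h3 => hc h3.1)]
    · subst h
      simp
    · rw [if_neg h.ne', zero_add]
      have h2 : ¬ ((n : ZMod d) = (k : ZMod d) ∧ k < n) := fun h3 => by omega
      rw [if_neg h2, zero_add]
      by_cases hc : (n : ZMod d) = (k : ZMod d)
      · rw [if_pos hc, if_pos ⟨hc.symm, h⟩]
      · rw [if_neg hc, if_neg (fun h3 => hc h3.1.symm)]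
  rw [hsplit, part (fun n k => a n * (starRingEnd ℂ) (a k)) (fun n k h => by rw [ha n h, zero_mul]),
    part (fun n k => a k * (starRingEnd ℂ) (a n)) (fun n k h => by rw [ha n h, map_zero, mul_zero])]
  have h1 : ‖∑ n ∈ Icc 1 M, a n * (starRingEnd ℂ) (a n)‖ ≤ ∑ n ∈ Icc 1 M, ‖a n‖ ^ 2 := by
    refine (norm_sum_le _ _).trans (le_of_eq (sum_congr rfl fun n _ => ?_))
    rw [norm_mul, Complex.norm_conj, sq]
  have h2 : ‖∑ l ∈ Icc 1 (M / d), ∑ k ∈ Icc 1 M, a (k + d * l) * (starRingEnd ℂ) (a k)‖ ≤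
      ∑ l ∈ Icc 1 (M / d), ‖∑ n ∈ Icc 1 M, a (n + d * l) * (starRingEnd ℂ) (a n)‖ := norm_sum_le _ _
  have h3 : ‖∑ l ∈ Icc 1 (M / d), ∑ k ∈ Icc 1 M, a k * (starRingEnd ℂ) (a (k + d * l))‖ ≤
      ∑ l ∈ Icc 1 (M / d), ‖∑ n ∈ Icc 1 M, a (n + d * l) * (starRingEnd ℂ) (a n)‖ := by
    refine (norm_sum_le _ _).trans (le_of_eq (sum_congr rfl fun l _ => ?_))
    rw [← Complex.norm_conj, map_sum]
    congr 1
    refine sum_congr rfl fun n _ => ?_
    rw [map_mul, Complex.conj_conj, mul_comm]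
  refine (norm_add₃_le).trans ?_
  linarith

/-- average of the `p`-part -/
lemma sum_ppart {p : ℕ} (hp : p.Prime) (Y J : ℕ) (hJ : Y < p ^ J) :
    ∑ l ∈ Icc 1 Y, p ^ (padicValNat p l) ≤ Y * J := by
  classical
  haveI := Fact.mk hp
  calc ∑ l ∈ Icc 1 Y, p ^ (padicValNat p l)
      ≤ ∑ l ∈ Icc 1 Y, ∑ j ∈ range J, (if p ^ j ∣ l then p ^ j else 0) := by
        refine sum_le_sum fun l hl => ?_
        rw [mem_Icc] at hl
        have h1 : p ^ padicValNat p l ∣ l := pow_padicValNat_dvd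
        have h2 : padicValNat p l ∈ range J := by
          rw [mem_range]
          have h3 : p ^ padicValNat p l ≤ l := Nat.le_of_dvd (by omega) h1
          exact (Nat.pow_lt_pow_iff_right hp.one_lt).1 (by omega)
        have h4 := single_le_sum (f := fun j => if p ^ j ∣ l then p ^ j else 0)
          (fun j _ => Nat.zero_le _) h2
        simp only [if_pos h1] at h4
        exact h4
    _ = ∑ j ∈ range J, ∑ l ∈ Icc 1 Y, (if p ^ j ∣ l then p ^ j else 0) := sum_comm
    _ ≤ ∑ j ∈ range J, Y := by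
        refine sum_le_sum fun j _ => ?_
        rw [← sum_filter, sum_const, smul_eq_mul]
        have h5 : ((Icc 1 Y).filter (fun l => p ^ j ∣ l)).card = Y / p ^ j := by
          have := Nat.Ioc_filter_dvd_card_eq_div Y (p ^ j)
          rw [← this]
          congr 1
        rw [h5]
        exact Nat.div_mul_le_self _ _
    _ = Y * J := by rw [sum_const, card_range, smul_eq_mul, mul_comm]

end Pool.Agent.Y766.R3
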