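import Pool.Agent.Y766.A4
import Pool.Agent.Y766.R3.TC
import Pool.Agent.Y766.R3.TD

/-!
Mean squares of `L(1/2 + it, χθ)`, `θ` mod `p^m`, `χ` primitive mod `p^ν`.
-/

set_option autoImplicit false

namespace Pool.Agent.Y766.R3

open Finset
open Pool.Agent.H442R2 Pool.Agent.H442R2.TSM
open Pool.Agent.Y766

/-- all shifts -/
lemma T_all (hW : S_WEY) (hPhi : S_PHI) (hK : S_KLO) {p : ℕ} (hp : p.Prime) (hp2 : p ≠ 2)
    {ε : ℝ} (hε : 0 < ε) : ∃ C : ℝ, 0 < C ∧ ∀ (ν m : ℕ), 1 ≤ m → m < ν →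
    46 * ν ≤ 139 * m → ∀ χ : DirichletCharacter ℂ (p ^ ν), χ.IsPrimitive →
    ∀ l : ℕ, 1 ≤ l → ∀ (g : ℝ → ℂ) (B : ℝ), Good B g → ∀ N δ : ℝ, 0 < N →
    N ≤ ((p : ℝ) ^ ν) ^ (1 / 2 + ε) →
    ‖∑ n ∈ Icc 1 ⌊4 * N⌋₊, FF χ ((p : ℤ) ^ m * l) (n : ℤ) *
      (g ((n : ℝ) / N + δ) * (starRingEnd ℂ) (g ((n : ℝ) / N)))‖ ≤
      C * B ^ 2 * (p : ℝ) ^ m * (((p : ℝ) ^ ν) ^ ε) ^ 3 * (p : ℝ) ^ (padicValNat p l) := by
  obtain ⟨C, hC, h⟩ := T_bound hW hPhi hK hp hp2 hε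
  have hp0 : (0 : ℝ) < p := by exact_mod_cast hp.pos
  have hp1 : (1 : ℝ) ≤ p := by exact_mod_cast hp.one_le
  haveI := Fact.mk hp
  refine ⟨C + 4, by positivity, ?_⟩
  intro ν m hm hmν h46 χ hχ l hl g B hg N δ hN hNle
  set v := padicValNat p l with hv
  obtain ⟨l', hl'⟩ : p ^ v ∣ l := pow_padicValNat_dvd
  have hpl' : ¬ p ∣ l' := by
    intro hd
    have h1 : p ^ (v + 1) ∣ l := by
      rw [hl', pow_succ]
      exact Nat.mul_dvd_mul_left _ hd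
    exact (pow_succ_padicValNat_not_dvd (p := p) (by omega : l ≠ 0)) h1
  have e1 : ((p : ℤ) ^ m * (l : ℤ)) = (p : ℤ) ^ (m + v) * (l' : ℤ) := by
    rw [hl']; push_cast; ring
  set q : ℝ := (p : ℝ) ^ ν with hq
  have hq1 : 1 ≤ q := one_le_pow₀ hp1
  set D : ℝ := q ^ ε with hD
  have hD1 : 1 ≤ D := Real.one_le_rpow hq1 hε.le
  have hq0 : 0 < q := by linarith
  rcases lt_or_ge (m + v) ν with hlt | hge
  · rw [e1]
    refine (h ν (m + v) (by omega) hlt (by omega) χ hχ l' (by exact_mod_cast hpl') g B hg N δ hN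
      hNle).trans ?_
    rw [pow_add]
    have : 0 ≤ B ^ 2 * ((p : ℝ) ^ m * (p : ℝ) ^ v) * D ^ 3 := by positivity
    calc C * B ^ 2 * ((p : ℝ) ^ m * (p : ℝ) ^ v) * D ^ 3 =
          C * (B ^ 2 * ((p : ℝ) ^ m * (p : ℝ) ^ v) * D ^ 3) := by ring
      _ ≤ (C + 4) * (B ^ 2 * ((p : ℝ) ^ m * (p : ℝ) ^ v) * D ^ 3) := by gcongr; linarith
      _ = _ := by ring
  · refine (T_triv χ _ hg hN δ).trans ?_
    have hN2 : N ≤ q ^ (1 / 2 : ℝ) * D := by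
      rw [hD, ← Real.rpow_add hq0]; exact hNle
    have h1 : q ^ (1 / 2 : ℝ) ≤ (p : ℝ) ^ m * (p : ℝ) ^ v := by
      rw [← pow_add]
      calc q ^ (1 / 2 : ℝ) ≤ q ^ (1 : ℝ) := Real.rpow_le_rpow_of_exponent_le hq1 (by norm_num)
        _ = (p : ℝ) ^ ν := by rw [Real.rpow_one]
        _ ≤ (p : ℝ) ^ (m + v) := pow_le_pow_right₀ hp1 hge
    have hD3 : D ≤ D ^ 3 := by nlinarith [sq_nonneg D, mul_pos (by linarith : 0 < D) (by linarith : 0 < D)]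
    calc 4 * N * B ^ 2 ≤ 4 * (((p : ℝ) ^ m * (p : ℝ) ^ v) * D ^ 3) * B ^ 2 := by
          gcongr
          exact hN2.trans (mul_le_mul h1 hD3 (by linarith) (by positivity))
      _ = 4 * (B ^ 2 * ((p : ℝ) ^ m * (p : ℝ) ^ v) * D ^ 3) := by ring
      _ ≤ (C + 4) * (B ^ 2 * ((p : ℝ) ^ m * (p : ℝ) ^ v) * D ^ 3) := by gcongr; linarith
      _ = _ := by ring

/-- one smooth sum over the family -/
lemma one_sumP (hW : S_WEY) (hPhi : S_PHI) (hK : S_KLO) {p : ℕ} (hp : p.Prime) (hp2 : p ≠ 2)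
    {ε : ℝ} (hε : 0 < ε) (hε1 : ε ≤ 1 / 2) : ∃ C : ℝ, 0 < C ∧ ∀ (ν m : ℕ) [NeZero (p ^ m)]
    (hmν : m < ν), 1 ≤ m → 46 * ν ≤ 139 * m → ∀ χ : DirichletCharacter ℂ (p ^ ν), χ.IsPrimitive →
    ∀ (g : ℝ → ℂ) (B : ℝ), Good B g → ∀ N : ℝ, 0 < N → N ≤ ((p : ℝ) ^ ν) ^ (1 / 2 + ε) →
    ∑ θ : DirichletCharacter ℂ (p ^ m),
      ‖SS (χ * DirichletCharacter.changeLevel (pow_dvd_pow p hmν.le) θ) g N‖ ^ 2 ≤
      C * B ^ 2 * (p : ℝ) ^ m * N * (((p : ℝ) ^ ν) ^ ε) ^ 4 := by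
  obtain ⟨C, hC, h⟩ := T_all hW hPhi hK hp hp2 hε
  have hp0 : (0 : ℝ) < p := by exact_mod_cast hp.pos
  have hp1 : (1 : ℝ) ≤ p := by exact_mod_cast hp.one_le
  have hp3 : (3 : ℝ) ≤ p := by
    have h2 := hp.two_le
    have : 3 ≤ p := by omega
    exact_mod_cast this
  set c1 : ℝ := 1 / (ε * Real.log 2) with hc1
  have hlog : 0 < Real.log 2 := Real.log_pos (by norm_num)
  have hc10 : 0 < c1 := by positivity
  refine ⟨4 + 2 * (4 * (c1 + 1) * C), by positivity, ?_⟩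
  intro ν m _ hmν hm h46 χ hχ g B hg N hN hNle
  have hB : 0 ≤ B := (norm_nonneg _).trans (hg.b0 0)
  set q : ℝ := (p : ℝ) ^ ν with hq
  have hq1 : 1 ≤ q := one_le_pow₀ hp1
  have hq0 : 0 < q := by linarith
  set D : ℝ := q ^ ε with hD
  have hD1 : 1 ≤ D := Real.one_le_rpow hq1 hε.le
  have hD0 : 0 < D := by linarith
  haveI : NeZero p := ⟨hp.ne_zero⟩
  set M : ℕ := ⌊4 * N⌋₊ with hM
  have hM4 : (M : ℝ) ≤ 4 * N := Nat.floor_le (by positivity)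
  set a : ℕ → ℂ := fun n => χ (n : ZMod (p ^ ν)) * g ((n : ℝ) / N) with ha
  have hane : ∀ n : ℕ, ‖a n‖ ≤ B := by
    intro n
    simp only [ha]
    rw [norm_mul]
    calc _ ≤ 1 * B := mul_le_mul (χ.norm_le_one _) (hg.b0 _) (norm_nonneg _) zero_le_one
      _ = B := one_mul B
  have ha0 : ∀ n, M < n → a n = 0 := by
    intro n hn
    simp only [ha]
    have h1 : 4 * N < n := Nat.lt_of_floor_lt hn
    rw [hg.tst.supp, mul_zero]
    intro h2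
    have := h2.2
    rw [div_le_iff₀ hN] at this
    linarith
  have hdvd : p ^ m ∣ p ^ ν := pow_dvd_pow p hmν.le
  have hunit : ∀ n : ℕ, IsUnit (n : ZMod (p ^ m)) ↔ IsUnit (n : ZMod (p ^ ν)) := by
    intro n
    rw [ZMod.isUnit_iff_coprime, ZMod.isUnit_iff_coprime, Nat.coprime_pow_right_iff (by omega),
      Nat.coprime_pow_right_iff (by omega)]
  have hSS : ∀ θ : DirichletCharacter ℂ (p ^ m),
      SS (χ * DirichletCharacter.changeLevel hdvd θ) g N = ∑ n ∈ Icc 1 M, θ (n : ZMod (p ^ m)) * a n := by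
    intro θ
    unfold SS
    refine sum_congr rfl fun n _ => ?_
    rw [MulChar.mul_apply]
    by_cases hn : IsUnit (n : ZMod (p ^ ν))
    · obtain ⟨u, hu⟩ := hn
      have : (DirichletCharacter.changeLevel hdvd θ) (n : ZMod (p ^ ν)) = θ (n : ZMod (p ^ m)) := by
        rw [← hu, DirichletCharacter.changeLevel_eq_cast_of_dvd, hu, ZMod.cast_natCast hdvd]
      rw [this]
      simp only [ha]
      ring
    · have h1 : χ (n : ZMod (p ^ ν)) = 0 := MulChar.map_nonunit _ hn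
      simp only [ha]
      rw [h1]
      ring
  simp_rw [hSS]
  have horth := orth (d := p ^ m) (Icc 1 M) a (fun n _ hn => by
    simp only [ha]
    rw [MulChar.map_nonunit χ (fun h1 => hn ((hunit n).2 h1)), zero_mul])
  refine horth.trans ?_
  have hcong := cong_sum (d := p ^ m) (M := M) (pow_pos hp.pos m) a ha0
  have hTl : ∀ l ∈ Icc 1 (M / p ^ m), ‖∑ n ∈ Icc 1 M, a (n + p ^ m * l) * (starRingEnd ℂ) (a n)‖ ≤
      C * B ^ 2 * (p : ℝ) ^ m * D ^ 3 * (p : ℝ) ^ (padicValNat p l) := by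
    intro l hl
    rw [mem_Icc] at hl
    have h1 := h ν m hm hmν h46 χ hχ l hl.1 g B hg N ((p : ℝ) ^ m * l / N) hN hNle
    refine le_trans (le_of_eq ?_) h1
    congr 1
    refine sum_congr rfl fun n _ => ?_
    simp only [ha]
    unfold FF
    rw [map_mul]
    have e2 : ((n + p ^ m * l : ℕ) : ℝ) / N = (n : ℝ) / N + (p : ℝ) ^ m * l / N := by
      push_cast; ring
    have e3 : ((n + p ^ m * l : ℕ) : ZMod (p ^ ν)) = (((n : ℤ) + (p : ℤ) ^ m * l : ℤ) : ZMod (p ^ ν)) := by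
      push_cast; ring
    have e4 : ((n : ℕ) : ZMod (p ^ ν)) = (((n : ℕ) : ℤ) : ZMod (p ^ ν)) := by push_cast; rfl
    rw [e2, e3, ← e4]
    ring
  have hYJ : M / p ^ m < p ^ (ν + 1) := by
    have h1 : (M : ℝ) < (p : ℝ) ^ (ν + 1) * (p : ℝ) ^ m := by
      calc (M : ℝ) ≤ 4 * N := hM4
        _ ≤ 4 * q ^ (1 / 2 + ε) := by gcongr
        _ ≤ 4 * q ^ (1 : ℝ) := by
            gcongr
            linarith
        _ = 4 * (p : ℝ) ^ ν := by rw [Real.rpow_one]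
        _ < 9 * (p : ℝ) ^ ν := by
            have : 0 < (p : ℝ) ^ ν := by positivity
            linarith
        _ ≤ (p * (p : ℝ) ^ m) * (p : ℝ) ^ ν := by
            have h5 : (3 : ℝ) ≤ (p : ℝ) ^ m := by
              calc (3 : ℝ) ≤ p := hp3
                _ = (p : ℝ) ^ 1 := (pow_one _).symm
                _ ≤ (p : ℝ) ^ m := pow_le_pow_right₀ hp1 hm
            have : (9 : ℝ) ≤ p * (p : ℝ) ^ m := by nlinarith
            gcongr
        _ = _ := by ring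
    rw [Nat.div_lt_iff_lt_mul (pow_pos hp.pos m)]
    exact_mod_cast h1
  have hpp := sum_ppart hp (M / p ^ m) (ν + 1) hYJ
  have hpp' : ∑ l ∈ Icc 1 (M / p ^ m), (p : ℝ) ^ (padicValNat p l) ≤
      ((M / p ^ m : ℕ) : ℝ) * (ν + 1) := by exact_mod_cast hpp
  have hν : (ν : ℝ) + 1 ≤ (c1 + 1) * D := by
    have h1 := nat_le_pow hε ν
    have h2 : ((2 : ℝ) ^ ν) ^ ε ≤ D := by
      rw [hD, hq]
      have : (2 : ℝ) ≤ p := by linarith
      gcongr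
    calc (ν : ℝ) + 1 ≤ c1 * D + D := by
          refine add_le_add (h1.trans ?_) hD1
          gcongr
      _ = _ := by ring
  have hMd : (p : ℝ) ^ m * ((M / p ^ m : ℕ) : ℝ) ≤ 4 * N := by
    have h1 : p ^ m * (M / p ^ m) ≤ M := Nat.mul_div_le M (p ^ m)
    calc (p : ℝ) ^ m * ((M / p ^ m : ℕ) : ℝ) = ((p ^ m * (M / p ^ m) : ℕ) : ℝ) := by push_cast; rfl
      _ ≤ M := by exact_mod_cast h1
      _ ≤ 4 * N := hM4
  have hdiag : ∑ n ∈ Icc 1 M, ‖a n‖ ^ 2 ≤ 4 * N * B ^ 2 := by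
    calc ∑ n ∈ Icc 1 M, ‖a n‖ ^ 2 ≤ ∑ n ∈ Icc 1 M, B ^ 2 := by
          refine sum_le_sum fun n _ => ?_
          have := hane n
          gcongr
      _ = M * B ^ 2 := by rw [sum_const, Nat.card_Icc, Nat.add_sub_cancel, nsmul_eq_mul]
      _ ≤ _ := by gcongr
  have hoff : ∑ l ∈ Icc 1 (M / p ^ m), ‖∑ n ∈ Icc 1 M, a (n + p ^ m * l) * (starRingEnd ℂ) (a n)‖ ≤
      4 * (c1 + 1) * C * (B ^ 2 * N * D ^ 4) := by
    calc _ ≤ ∑ l ∈ Icc 1 (M / p ^ m), C * B ^ 2 * (p : ℝ) ^ m * D ^ 3 * (p : ℝ) ^ (padicValNat p l) :=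
          sum_le_sum hTl
      _ = C * B ^ 2 * (p : ℝ) ^ m * D ^ 3 * ∑ l ∈ Icc 1 (M / p ^ m), (p : ℝ) ^ (padicValNat p l) := by
          rw [mul_sum]
      _ ≤ C * B ^ 2 * (p : ℝ) ^ m * D ^ 3 * (((M / p ^ m : ℕ) : ℝ) * ((c1 + 1) * D)) := by
          gcongr
          refine hpp'.trans ?_
          gcongr
      _ = (c1 + 1) * C * B ^ 2 * D ^ 4 * ((p : ℝ) ^ m * ((M / p ^ m : ℕ) : ℝ)) := by ring
      _ ≤ (c1 + 1) * C * B ^ 2 * D ^ 4 * (4 * N) := by gcongr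
      _ = _ := by ring
  have hD4 : 1 ≤ D ^ 4 := one_le_pow₀ hD1
  have hpm : ((p ^ m : ℕ) : ℝ) = (p : ℝ) ^ m := by push_cast; rfl
  rw [hpm]
  calc (p : ℝ) ^ m * _ ≤ (p : ℝ) ^ m * (4 * N * B ^ 2 + 2 * (4 * (c1 + 1) * C * (B ^ 2 * N * D ^ 4))) := by
        refine mul_le_mul_of_nonneg_left (hcong.trans ?_) (by positivity)
        exact add_le_add hdiag (mul_le_mul_of_nonneg_left hoff (by norm_num))
    _ ≤ (p : ℝ) ^ m * (4 * (B ^ 2 * N * D ^ 4) + 2 * (4 * (c1 + 1) * C * (B ^ 2 * N * D ^ 4))) := by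
        have h1 : 4 * N * B ^ 2 * 1 ≤ 4 * N * B ^ 2 * D ^ 4 := by gcongr
        have h2 : 4 * N * B ^ 2 ≤ 4 * (B ^ 2 * N * D ^ 4) := by nlinarith
        gcongr
    _ = _ := by ring

/-- primitivity -/
lemma prim_mul {p ν m : ℕ} (hp : p.Prime) (hmν : m < ν) {χ : DirichletCharacter ℂ (p ^ ν)}
    (hχ : χ.IsPrimitive) (θ : DirichletCharacter ℂ (p ^ m)) :
    (χ * DirichletCharacter.changeLevel (pow_dvd_pow p hmν.le) θ).IsPrimitive := by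
  haveI : NeZero (p ^ ν) := ⟨pow_ne_zero _ hp.ne_zero⟩
  set θ' := DirichletCharacter.changeLevel (pow_dvd_pow p hmν.le) θ with hθ'
  by_contra hcon
  unfold DirichletCharacter.IsPrimitive at hcon hχ
  -- the conductor of the product divides `p^(ν-1)`
  obtain ⟨j, hj, hcj⟩ := (Nat.dvd_prime_pow hp).1 (DirichletCharacter.conductor_dvd_level (χ * θ'))
  have hjν : j < ν := by
    rcases lt_or_eq_of_le hj with h | h
    · exact h
    · exact absurd (by rw [hcj, h]) hcon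
  have h1 : (χ * θ').FactorsThrough (p ^ j) := by
    rw [← hcj]; exact DirichletCharacter.factorsThrough_conductor _
  have h2 : θ'.FactorsThrough (p ^ m) := ⟨pow_dvd_pow p hmν.le, θ, hθ'⟩
  -- both factor through `p^k`, `k = max j m < ν`
  set k := max j m with hk
  have hkν : k < ν := max_lt hjν hmν
  have hker1 := (DirichletCharacter.factorsThrough_iff_ker_unitsMap (pow_dvd_pow p hj)).1 h1
  have hker2 := (DirichletCharacter.factorsThrough_iff_ker_unitsMap (pow_dvd_pow p hmν.le)).1 h2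
  have hmono : ∀ i, i ≤ k → ∀ (hi : p ^ i ∣ p ^ ν), (ZMod.unitsMap (pow_dvd_pow p hkν.le)).ker ≤
      (ZMod.unitsMap hi).ker := by
    intro i hik hi u hu
    rw [MonoidHom.mem_ker] at hu ⊢
    have := ZMod.unitsMap_comp (pow_dvd_pow p hik) (pow_dvd_pow p hkν.le)
    have h3 := congrArg (fun f => f u) this
    simp only [MonoidHom.comp_apply] at h3
    rw [hu, map_one] at h3
    exact h3.symm
  have hχk : χ.FactorsThrough (p ^ k) := by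
    rw [DirichletCharacter.factorsThrough_iff_ker_unitsMap (pow_dvd_pow p hkν.le)]
    intro u hu
    have a1 := hker1 (hmono j (le_max_left _ _) _ hu)
    have a2 := hker2 (hmono m (le_max_right _ _) _ hu)
    rw [MonoidHom.mem_ker] at a1 a2 ⊢
    have e1 : (χ * θ').toUnitHom u = χ.toUnitHom u * θ'.toUnitHom u := by
      apply Units.ext
      rw [Units.val_mul, MulChar.coe_toUnitHom, MulChar.coe_toUnitHom, MulChar.coe_toUnitHom,
        MulChar.mul_apply]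
    rw [e1, a2, mul_one] at a1
    exact a1
  have h4 : χ.conductor ≤ p ^ k := Nat.sInf_le hχk
  rw [hχ] at h4
  have h5 : p ^ k < p ^ ν := Nat.pow_lt_pow_right hp.one_lt hkν
  omega

theorem main3 (hW : S_WEY) (hPhi : S_PHI) (hK : S_KLO) {p : ℕ} [hpf : Fact p.Prime] (hp2 : p ≠ 2)
    {ε : ℝ} (hε : 0 < ε) : ∃ (C : ℝ) (A : ℕ), 0 < C ∧ ∀ (ν m : ℕ) (hmν : m < ν),
    46 * ν ≤ 139 * m → ∀ χ : DirichletCharacter ℂ (p ^ ν), χ.IsPrimitive → ∀ t : ℝ,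
    ∑ θ : DirichletCharacter ℂ (p ^ m),
      ‖(χ * DirichletCharacter.changeLevel (pow_dvd_pow p hmν.le) θ).LFunction
        (1 / 2 + (t : ℂ) * Complex.I)‖ ^ 2 ≤
      C * (1 + |t|) ^ A * ((p : ℝ) ^ ν) ^ ε * (p : ℝ) ^ m := by
  have hp : p.Prime := hpf.out
  set δ : ℝ := min ε 1 / 8 with hδ
  have hδ0 : 0 < δ := by positivity
  have hδε : 6 * δ ≤ ε := by
    have := min_le_left ε 1
    have h0 : 0 < min ε 1 := by positivity
    rw [hδ]; linarith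
  have hδ1 : δ ≤ 1 / 2 := by
    have := min_le_right ε 1
    rw [hδ]; linarith
  obtain ⟨C1, A, hC1, h1⟩ := afe1 hδ0 (by linarith : δ ≤ 1)
  obtain ⟨C2, hC2, h2⟩ := one_sumP hW hPhi hK hp hp2 hδ0 hδ1
  have hp0 : (0 : ℝ) < p := by exact_mod_cast hp.pos
  have hp1 : (1 : ℝ) ≤ p := by exact_mod_cast hp.one_le
  refine ⟨2 * C1 ^ 2 + 2 * (C1 * C1 * C2 * C1 ^ 2), 2 * A, by positivity, ?_⟩
  intro ν m hmν h46 χ hχ t
  have hm : 1 ≤ m := by omega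
  have hq : 1 < p ^ ν := Nat.one_lt_pow (by omega) hp.one_lt
  have hqe : ((p ^ ν : ℕ) : ℝ) = (p : ℝ) ^ ν := by push_cast; rfl
  obtain ⟨ι, _, N, g, hcard, hN, hg, hL⟩ := h1 t (p ^ ν) hq
  rw [hqe] at hcard hN
  set q : ℝ := (p : ℝ) ^ ν with hqd
  have hq1 : 1 ≤ q := one_le_pow₀ hp1
  have hq0 : 0 < q := by linarith
  set T : ℝ := C1 * (1 + |t|) ^ A with hT
  have hT0 : 0 < T := by positivity
  set n : ℝ := (Fintype.card ι : ℝ) with hn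
  have hn0 : 0 ≤ n := Nat.cast_nonneg _
  set ψ : DirichletCharacter ℂ (p ^ m) → DirichletCharacter ℂ (p ^ ν) := fun θ =>
    χ * DirichletCharacter.changeLevel (pow_dvd_pow p hmν.le) θ with hψ
  have hpt : ∀ θ : DirichletCharacter ℂ (p ^ m),
        ‖(ψ θ).LFunction (1 / 2 + (t : ℂ) * Complex.I)‖ ^ 2 ≤
      2 * T ^ 2 + 2 * (n * ∑ i, (N i)⁻¹ * ‖SS (ψ θ) (g i) (N i)‖ ^ 2) := by
    intro θ
    have h3 := hL (ψ θ) (prim_mul hp hmν hχ θ)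
    have h4 : (∑ i, N i ^ (-(1 / 2) : ℝ) * ‖SS (ψ θ) (g i) (N i)‖) ^ 2 ≤
        n * ∑ i, (N i ^ (-(1 / 2) : ℝ) * ‖SS (ψ θ) (g i) (N i)‖) ^ 2 := by
      have := sq_sum_le_card_mul_sum_sq (s := (univ : Finset ι))
        (f := fun i => N i ^ (-(1 / 2) : ℝ) * ‖SS (ψ θ) (g i) (N i)‖)
      rwa [card_univ] at this
    have h5 : ∀ i, (N i ^ (-(1 / 2) : ℝ) * ‖SS (ψ θ) (g i) (N i)‖) ^ 2 =
        (N i)⁻¹ * ‖SS (ψ θ) (g i) (N i)‖ ^ 2 := by
      intro i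
      have hNi : 0 < N i := by linarith [(hN i).1]
      rw [mul_pow]
      congr 1
      rw [← Real.rpow_natCast, ← Real.rpow_mul hNi.le, ← Real.rpow_neg_one]
      congr 1
      norm_num
    simp_rw [h5] at h4
    set S := ∑ i, N i ^ (-(1 / 2) : ℝ) * ‖SS (ψ θ) (g i) (N i)‖ with hS
    calc _ ≤ (T + S) ^ 2 := by gcongr
      _ ≤ 2 * T ^ 2 + 2 * S ^ 2 := by nlinarith [sq_nonneg (T - S)]
      _ ≤ _ := by linarith
  have hcardθ : (Fintype.card (DirichletCharacter ℂ (p ^ m)) : ℝ) ≤ (p : ℝ) ^ m := by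
    have e1 := DirichletCharacter.card_eq_totient_of_hasEnoughRootsOfUnity ℂ (p ^ m)
    rw [← Nat.card_eq_fintype_card, e1]
    calc ((p ^ m).totient : ℝ) ≤ ((p ^ m : ℕ) : ℝ) := by exact_mod_cast Nat.totient_le _
      _ = _ := by push_cast; rfl
  have hpm0 : 0 < (p : ℝ) ^ m := by positivity
  calc ∑ θ : DirichletCharacter ℂ (p ^ m), ‖(ψ θ).LFunction (1 / 2 + (t : ℂ) * Complex.I)‖ ^ 2
      ≤ ∑ θ : DirichletCharacter ℂ (p ^ m),
        (2 * T ^ 2 + 2 * (n * ∑ i, (N i)⁻¹ * ‖SS (ψ θ) (g i) (N i)‖ ^ 2)) :=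
        sum_le_sum fun θ _ => hpt θ
    _ = 2 * T ^ 2 * (Fintype.card (DirichletCharacter ℂ (p ^ m))) +
        2 * (n * ∑ i, (N i)⁻¹ * ∑ θ : DirichletCharacter ℂ (p ^ m), ‖SS (ψ θ) (g i) (N i)‖ ^ 2) := by
        rw [sum_add_distrib, sum_const, card_univ, nsmul_eq_mul, ← mul_sum, ← mul_sum, sum_comm]
        simp_rw [← mul_sum]
        ring
    _ ≤ 2 * T ^ 2 * (p : ℝ) ^ m + 2 * (n * ∑ i : ι, C2 * T ^ 2 * (p : ℝ) ^ m * (q ^ δ) ^ 4) := by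
        have h6 : ∀ i : ι, (N i)⁻¹ * ∑ θ : DirichletCharacter ℂ (p ^ m), ‖SS (ψ θ) (g i) (N i)‖ ^ 2 ≤
            C2 * T ^ 2 * (p : ℝ) ^ m * (q ^ δ) ^ 4 := by
          intro i
          have hNi : 0 < N i := by linarith [(hN i).1]
          have h7 := h2 ν m hmν hm h46 χ hχ (g i) T (hg i) (N i) hNi (hN i).2
          calc _ ≤ (N i)⁻¹ * (C2 * T ^ 2 * (p : ℝ) ^ m * N i * (q ^ δ) ^ 4) := by gcongr
            _ = _ := by field_simp
        have h8 : ∑ i : ι, (N i)⁻¹ * ∑ θ : DirichletCharacter ℂ (p ^ m), ‖SS (ψ θ) (g i) (N i)‖ ^ 2 ≤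
            ∑ i : ι, C2 * T ^ 2 * (p : ℝ) ^ m * (q ^ δ) ^ 4 := sum_le_sum fun i _ => h6 i
        gcongr
    _ = 2 * T ^ 2 * (p : ℝ) ^ m + 2 * (n * n * (C2 * T ^ 2 * (p : ℝ) ^ m * (q ^ δ) ^ 4)) := by
        rw [sum_const, nsmul_eq_mul, card_univ]; ring
    _ ≤ 2 * T ^ 2 * (p : ℝ) ^ m * q ^ ε + 2 * ((C1 * q ^ δ) * (C1 * q ^ δ) *
        (C2 * T ^ 2 * (p : ℝ) ^ m * (q ^ δ) ^ 4)) := by
        have hqe : 1 ≤ q ^ ε := Real.one_le_rpow hq1 hε.le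
        have h5 : 2 * T ^ 2 * (p : ℝ) ^ m ≤ 2 * T ^ 2 * (p : ℝ) ^ m * q ^ ε :=
          le_mul_of_one_le_right (by positivity) hqe
        gcongr
    _ = 2 * T ^ 2 * (p : ℝ) ^ m * q ^ ε + 2 * (C1 * C1 * C2 * T ^ 2 * (p : ℝ) ^ m) * (q ^ δ) ^ 6 := by ring
    _ ≤ 2 * T ^ 2 * (p : ℝ) ^ m * q ^ ε + 2 * (C1 * C1 * C2 * T ^ 2 * (p : ℝ) ^ m) * q ^ ε := by
        have h6 : (q ^ δ) ^ 6 ≤ q ^ ε := by
          rw [← Real.rpow_natCast, ← Real.rpow_mul hq0.le]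
          refine Real.rpow_le_rpow_of_exponent_le hq1 ?_
          push_cast; linarith
        gcongr
    _ = _ := by
      rw [hT]
      ring

end Pool.Agent.Y766.R3
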