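import Pool.Agent.Y766.W3

/-!
Transforms of good weights and of products of shifted good weights.
-/

set_option autoImplicit false

namespace Pool.Agent.Y766.R3

open Finset MeasureTheory
open Pool.Agent.H442R2 Pool.Agent.H442R2.TSM Pool.Agent.H442R2.TSM.TaskTA
open Pool.Agent.H442R2.TSM.TaskQI
open Pool.Agent.Y766

/-- decay of the transform, two derivatives -/
lemma fh_dec {f : ℝ → ℂ} {B : ℝ} (hf : Tst f) (h0 : ∀ x, ‖f x‖ ≤ B)
    (h2 : ∀ x, ‖deriv (deriv f) x‖ ≤ B) (w : ℝ) : ‖Fh f w‖ ≤ 4 * B / (1 + w ^ 2) := by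
  have hB : 0 ≤ B := (norm_nonneg _).trans (h0 0)
  have e1 := fh_le hf h0 w
  have e2 := fh_le (tst_deriv (tst_deriv hf)) h2 w
  rw [Fh_deriv (tst_deriv hf), Fh_deriv hf] at e2
  have e3 : ‖2 * Real.pi * Complex.I * w * (2 * Real.pi * Complex.I * w * Fh f w)‖ =
      (2 * Real.pi) ^ 2 * w ^ 2 * ‖Fh f w‖ := by
    simp only [norm_mul, Complex.norm_I, Complex.norm_real, Real.norm_eq_abs,
      Complex.norm_ofNat, abs_of_pos Real.pi_pos]
    rw [← sq_abs w]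
    ring
  rw [e3] at e2
  have hpi : 9 ≤ Real.pi ^ 2 := by nlinarith [Real.pi_gt_three]
  rw [le_div_iff₀ (by positivity)]
  have e4 : w ^ 2 * ‖Fh f w‖ * 36 ≤ (2 * Real.pi) ^ 2 * w ^ 2 * ‖Fh f w‖ := by
    have : 0 ≤ w ^ 2 * ‖Fh f w‖ := by positivity
    nlinarith
  nlinarith

lemma deriv_id_mul {f : ℝ → ℂ} (hf : Tst f) :
    deriv (fun u => f u * (u : ℂ)) = fun u => deriv f u * (u : ℂ) + f u := by
  funext u
  have h := (tst_hasDeriv hf u).mul (Complex.ofRealCLM.hasDerivAt (x := u))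
  have h' := h.deriv
  simp only [Complex.ofRealCLM_apply, Complex.ofReal_one, mul_one] at h'
  exact h'

lemma good_fh {f : ℝ → ℂ} {B : ℝ} (h : Good B f) :
    (∀ w, ‖Fh f w‖ ≤ 200 * B / (1 + w ^ 2)) ∧
    ∀ w, ∃ d : ℂ, HasDerivAt (Fh f) d w ∧ ‖d‖ ≤ 200 * B / (1 + w ^ 2) := by
  have hB : 0 ≤ B := (norm_nonneg _).trans (h.b0 0)
  refine ⟨fun w => (fh_dec h.tst h.b0 h.b2 w).trans ?_, fun w => ⟨_, fh_hasDeriv h.tst w, ?_⟩⟩
  · gcongr; norm_num
  have ht1 := tst_id h.tst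
  have hle : ∀ (φ : ℝ → ℂ) (C : ℝ), Tst φ → (∀ x, ‖φ x‖ ≤ C) → ∀ x : ℝ, ‖φ x * (x : ℂ)‖ ≤ 4 * C := by
    intro φ C hφ hC x
    by_cases hx : x ∈ Set.Icc (1 : ℝ) 4
    · rw [norm_mul, Complex.norm_real, Real.norm_eq_abs, abs_of_nonneg (by linarith [hx.1])]
      have hC0 : 0 ≤ C := (norm_nonneg _).trans (hC 0)
      calc ‖φ x‖ * x ≤ C * 4 := mul_le_mul (hC x) hx.2 (by linarith [hx.1]) hC0
        _ = 4 * C := by ring
    · have hC0 : 0 ≤ C := (norm_nonneg _).trans (hC 0)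
      rw [hφ.supp x hx, zero_mul, norm_zero]; positivity
  have hd1 : deriv (deriv (fun u => f u * (u : ℂ))) =
      fun u => deriv (deriv f) u * (u : ℂ) + deriv f u + deriv f u := by
    rw [deriv_id_mul h.tst]
    funext u
    have h3 := (tst_hasDeriv (tst_deriv h.tst) u).mul (Complex.ofRealCLM.hasDerivAt (x := u))
    have h4 := h3.add (tst_hasDeriv h.tst u)
    have h5 := h4.deriv
    simp only [Complex.ofRealCLM_apply, Complex.ofReal_one, mul_one] at h5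
    exact h5
  have b0 := hle f B h.tst h.b0
  have b2 : ∀ x, ‖deriv (deriv (fun u => f u * (u : ℂ))) x‖ ≤ 6 * B := by
    intro x
    rw [hd1]
    have := hle _ B (tst_deriv (tst_deriv h.tst)) h.b2 x
    calc _ ≤ ‖deriv (deriv f) x * (x : ℂ)‖ + ‖deriv f x‖ + ‖deriv f x‖ := norm_add₃_le
      _ ≤ 4 * B + B + B := by gcongr; exacts [h.b1 x, h.b1 x]
      _ = 6 * B := by ring
  have hk := fh_dec ht1 (B := 6 * B) (fun x => (b0 x).trans (by linarith)) b2 w
  rw [norm_mul]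
  have e1 : ‖(-2 * Real.pi * Complex.I : ℂ)‖ = 2 * Real.pi := by
    simp [abs_of_pos Real.pi_pos]
  rw [e1]
  have hpi : Real.pi ≤ 4 := by linarith [Real.pi_le_four]
  calc 2 * Real.pi * ‖Fh (fun u => f u * (u : ℂ)) w‖ ≤ 2 * 4 * (4 * (6 * B) / (1 + w ^ 2)) := by gcongr
    _ = 192 * B / (1 + w ^ 2) := by ring
    _ ≤ _ := by gcongr; norm_num

lemma good_prod {g : ℝ → ℂ} {B : ℝ} (h : Good B g) (δ : ℝ) :
    Good (4 * B ^ 2) (fun x => g (x + δ) * (starRingEnd ℂ) (g x)) := by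
  have hB : 0 ≤ B := (norm_nonneg _).trans (h.b0 0)
  have hc := good_conj h
  set k : ℝ → ℂ := fun x => (starRingEnd ℂ) (g x) with hk
  have hsm : ContDiff ℝ ((⊤ : ℕ∞) : WithTop ℕ∞) (fun x => g (x + δ)) :=
    h.tst.smooth.comp (contDiff_id.add contDiff_const)
  have d1 : ∀ x, HasDerivAt (fun x => g (x + δ)) (deriv g (x + δ)) x := fun x =>
    (tst_hasDeriv h.tst (x + δ)).comp_add_const x δ
  have d2 : ∀ x, HasDerivAt (fun x => deriv g (x + δ)) (deriv (deriv g) (x + δ)) x := fun x =>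
    (tst_hasDeriv (tst_deriv h.tst) (x + δ)).comp_add_const x δ
  have e1 : deriv (fun x => g (x + δ) * k x) = fun x => deriv g (x + δ) * k x + g (x + δ) * deriv k x := by
    funext x
    exact ((d1 x).mul (tst_hasDeriv hc.tst x)).deriv
  have e2 : deriv (deriv (fun x => g (x + δ) * k x)) = fun x =>
      (deriv (deriv g) (x + δ) * k x + deriv g (x + δ) * deriv k x) +
      (deriv g (x + δ) * deriv k x + g (x + δ) * deriv (deriv k) x) := by
    rw [e1]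
    funext x
    exact (((d2 x).mul (tst_hasDeriv hc.tst x)).add
      ((d1 x).mul (tst_hasDeriv (tst_deriv hc.tst) x))).deriv
  refine ⟨⟨hsm.mul hc.tst.smooth, fun x hx => ?_⟩, fun x => ?_, fun x => ?_, fun x => ?_⟩
  · have := hc.tst.supp x hx
    simp only [hk] at this
    rw [this, mul_zero]
  · rw [norm_mul]
    calc _ ≤ B * B := mul_le_mul (h.b0 _) (hc.b0 x) (norm_nonneg _) hB
      _ ≤ 4 * B ^ 2 := by nlinarith
  · rw [e1]
    refine (norm_add_le _ _).trans ?_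
    rw [norm_mul, norm_mul]
    calc _ ≤ B * B + B * B := add_le_add (mul_le_mul (h.b1 _) (hc.b0 x) (norm_nonneg _) hB)
          (mul_le_mul (h.b0 _) (hc.b1 x) (norm_nonneg _) hB)
      _ ≤ 4 * B ^ 2 := by nlinarith
  · rw [e2]
    refine (norm_add_le _ _).trans ?_
    refine (add_le_add (norm_add_le _ _) (norm_add_le _ _)).trans ?_
    rw [norm_mul, norm_mul]
    have f1 : ‖deriv (deriv g) (x + δ)‖ * ‖k x‖ ≤ B * B :=
      mul_le_mul (h.b2 _) (hc.b0 x) (norm_nonneg _) hB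
    have f2 : ‖deriv g (x + δ)‖ * ‖deriv k x‖ ≤ B * B :=
      mul_le_mul (h.b1 _) (hc.b1 x) (norm_nonneg _) hB
    have f3 : ‖g (x + δ) * deriv (deriv k) x‖ ≤ B * B := by
      rw [norm_mul]
      exact mul_le_mul (h.b0 _) (hc.b2 x) (norm_nonneg _) hB
    have e5 : ‖deriv g (x + δ) * deriv k x‖ = ‖deriv g (x + δ)‖ * ‖deriv k x‖ := norm_mul _ _
    nlinarith

end Pool.Agent.Y766.R3
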