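import Pool.Agent.Y766.A1
import Pool.Agent.Y766.R3.DA

/-!
Poisson summation for periodic functions, and summation by parts in blocks.
-/

set_option autoImplicit false

namespace Pool.Agent.Y766.R3

open Finset MeasureTheory
open Pool.Agent.H442R2 Pool.Agent.H442R2.TSM Pool.Agent.H442R2.TSM.TaskTA
open Pool.Agent.H442R2.TSM.TaskQI
open Pool.Agent.Y766

/-- decomposition into residue classes, for periodic functions -/
lemma class_sumP {Q : ℕ} [NeZero Q] (F : ℤ → ℂ) (hF : ∀ n k : ℤ, F (n + Q * k) = F n)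
    (f : ℝ → ℂ) (hf : Tst f) (Y : ℝ) (hY : 0 < Y) :
    ∑ n ∈ Icc 1 ⌊4 * Y⌋₊, F (n : ℤ) * f ((n : ℝ) / Y) =
      ∑ a : Fin Q, F ((a : ℕ) : ℤ) *
        ∑' k : ℤ, f ((Q : ℝ) / Y * ((k : ℝ) + ((a : ℕ) : ℝ) / Q)) := by
  have hq0 : (Q : ℝ) ≠ 0 := by exact_mod_cast NeZero.ne Q
  set G : ℤ → ℂ := fun n => F n * f ((n : ℝ) / Y) with hG
  have hG0 : ∀ n : ℤ, n ∉ (Icc 1 ⌊4 * Y⌋₊).map Nat.castEmbedding → G n = 0 := by
    intro n hn
    have : f ((n : ℝ) / Y) = 0 := by
      apply hf.supp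
      intro h
      apply hn
      rw [mem_map]
      have h1 : (0 : ℝ) < n := by
        have := h.1
        rw [le_div_iff₀ hY] at this
        linarith
      have h1' : 0 < n := by exact_mod_cast h1
      obtain ⟨m, hm⟩ := Int.eq_ofNat_of_zero_le h1'.le
      refine ⟨m, ?_, by rw [hm]; rfl⟩
      rw [mem_Icc]
      refine ⟨by omega, Nat.le_floor ?_⟩
      have := h.2
      rw [div_le_iff₀ hY, hm] at this
      exact_mod_cast this
    rw [hG]
    simp only [this, mul_zero]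
  have hGs : Summable G := summable_of_ne_finset_zero hG0
  have e1 : ∑ n ∈ Icc 1 ⌊4 * Y⌋₊, F (n : ℤ) * f ((n : ℝ) / Y) = ∑' n : ℤ, G n := by
    rw [tsum_eq_sum hG0, sum_map]
    refine sum_congr rfl fun n _ => ?_
    simp [hG]
  have hGs' : Summable (fun p : ℤ × Fin Q => G ((Int.divModEquiv Q).symm p)) :=
    (Int.divModEquiv Q).symm.summable_iff.2 hGs
  rw [e1, ← (Int.divModEquiv Q).symm.tsum_eq G]
  have hsw : Summable (fun p : Fin Q × ℤ => G ((Int.divModEquiv Q).symm (p.2, p.1))) :=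
    (Equiv.prodComm (Fin Q) ℤ).summable_iff.2 hGs'
  have e2 : ∑' p : ℤ × Fin Q, G ((Int.divModEquiv Q).symm p) =
      ∑' p : Fin Q × ℤ, G ((Int.divModEquiv Q).symm (p.2, p.1)) :=
    ((Equiv.prodComm (Fin Q) ℤ).tsum_eq
      (fun p : ℤ × Fin Q => G ((Int.divModEquiv Q).symm p))).symm
  rw [e2, hsw.tsum_prod, tsum_fintype]
  refine sum_congr rfl fun a _ => ?_
  rw [← tsum_mul_left]
  refine tsum_congr fun k => ?_
  rw [Int.divModEquiv_symm_apply]
  simp only [hG]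
  have e3 : F (((a : ℕ) : ℤ) + Q * k) = F ((a : ℕ) : ℤ) := hF _ _
  have e4 : (k * (Q : ℤ) + ((a : ℕ) : ℤ)) = ((a : ℕ) : ℤ) + Q * k := by ring
  rw [e4, e3]
  push_cast
  congr 2
  field_simp
  ring

/-- the finite Fourier transform of a periodic function -/
noncomputable def FH (Q : ℕ) (F : ℤ → ℂ) (h : ℤ) : ℂ :=
  ∑ n ∈ range Q, F (n : ℤ) * KF.e ((h : ℝ) * ((n : ℝ) / Q))

lemma poisP {Q : ℕ} [NeZero Q] (F : ℤ → ℂ) (hF : ∀ n k : ℤ, F (n + Q * k) = F n)
    {f : ℝ → ℂ} (hf : Tst f) {Y : ℝ} (hY : 0 < Y) :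
    Summable (fun j : ℤ => FH Q F j * Fh f ((j : ℝ) * (Y / Q))) ∧
    ∑ n ∈ Icc 1 ⌊4 * Y⌋₊, F (n : ℤ) * f ((n : ℝ) / Y) = ((Y / Q : ℝ) : ℂ) *
      ∑' j : ℤ, FH Q F j * Fh f ((j : ℝ) * (Y / Q)) := by
  have hq0 : (0 : ℝ) < Q := by exact_mod_cast NeZero.pos Q
  set l : ℝ := (Q : ℝ) / Y with hl
  have hl0 : 0 < l := by positivity
  have hp := fun a : Fin Q => pois f hf l hl0 (((a : ℕ) : ℝ) / Q)
  have hjl : ∀ j : ℤ, (j : ℝ) / l = (j : ℝ) * (Y / Q) := by
    intro j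
    rw [hl]
    field_simp
  have hs0 : Summable (fun j : ℤ => Fh f ((j : ℝ) * (Y / Q))) := by
    have h := (pois f hf l hl0 0).1
    refine h.congr fun j => ?_
    rw [hjl, mul_zero, KF.e_zero, mul_one]
  have hFH : ∀ j : ℤ, FH Q F j = ∑ a : Fin Q, F ((a : ℕ) : ℤ) * KF.e ((j : ℝ) * (((a : ℕ) : ℝ) / Q)) := by
    intro j
    unfold FH
    rw [Finset.sum_range]
  have hs : Summable (fun j : ℤ => FH Q F j * Fh f ((j : ℝ) * (Y / Q))) := by
    refine Summable.of_norm_bounded ((hs0.norm).mul_left (∑ a : Fin Q, ‖F ((a : ℕ) : ℤ)‖)) fun j => ?_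
    rw [norm_mul]
    refine mul_le_mul_of_nonneg_right ?_ (norm_nonneg _)
    rw [hFH]
    refine (norm_sum_le _ _).trans (sum_le_sum fun a _ => ?_)
    rw [norm_mul, KF.norm_e, mul_one]
  refine ⟨hs, ?_⟩
  rw [class_sumP F hF f hf Y hY]
  have e1 : ∀ a : Fin Q, F ((a : ℕ) : ℤ) *
        ∑' k : ℤ, f ((Q : ℝ) / Y * ((k : ℝ) + ((a : ℕ) : ℝ) / Q)) =
      ((1 / l : ℝ) : ℂ) * ∑' j : ℤ, Fh f ((j : ℝ) * (Y / Q)) * (F ((a : ℕ) : ℤ) *
        KF.e ((j : ℝ) * (((a : ℕ) : ℝ) / Q))) := by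
    intro a
    rw [(hp a).2, ← tsum_mul_left, ← tsum_mul_left, ← tsum_mul_left]
    refine tsum_congr fun j => ?_
    rw [hjl]
    ring
  simp_rw [e1]
  rw [← mul_sum]
  have hsa : ∀ a ∈ (univ : Finset (Fin Q)), Summable (fun j : ℤ => Fh f ((j : ℝ) * (Y / Q)) *
      (F ((a : ℕ) : ℤ) * KF.e ((j : ℝ) * (((a : ℕ) : ℝ) / Q)))) := by
    intro a _
    refine Summable.of_norm_bounded (hs0.norm.mul_left ‖F ((a : ℕ) : ℤ)‖) fun j => ?_
    rw [norm_mul, norm_mul, KF.norm_e, mul_one, mul_comm]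
  have e2 := Summable.tsum_finsetSum (s := (univ : Finset (Fin Q))) (f := fun (a : Fin Q) (j : ℤ) =>
    Fh f ((j : ℝ) * (Y / Q)) * (F ((a : ℕ) : ℤ) * KF.e ((j : ℝ) * (((a : ℕ) : ℝ) / Q)))) hsa
  rw [← e2, show (1 / l : ℝ) = Y / Q by rw [hl]; field_simp]
  congr 1
  refine tsum_congr fun j => ?_
  rw [← mul_sum, ← hFH, mul_comm]

/-- summation by parts -/
lemma abel_le (K : ℕ) (G c : ℕ → ℂ) {V S D : ℝ} (hV : ∀ J ≤ K, ‖∑ i ∈ range J, c i‖ ≤ V)
    (hS : ∀ i < K, ‖G i‖ ≤ S) (hD : ∀ i, i + 1 < K → ‖G (i + 1) - G i‖ ≤ D) (hS0 : 0 ≤ S)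
    (hD0 : 0 ≤ D) : ‖∑ i ∈ range K, G i * c i‖ ≤ V * (S + K * D) := by
  have hV0 : 0 ≤ V := by simpa using hV 0 (Nat.zero_le _)
  rcases Nat.eq_zero_or_pos K with hK | hK
  · subst hK; simp; positivity
  have h := Finset.sum_range_by_parts (M := ℂ) G c K
  simp only [smul_eq_mul] at h
  rw [h]
  refine (norm_sub_le _ _).trans ?_
  have h1 : ‖G (K - 1) * ∑ i ∈ range K, c i‖ ≤ S * V := by
    rw [norm_mul]
    exact mul_le_mul (hS _ (by omega)) (hV K le_rfl) (norm_nonneg _) hS0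
  have h2 : ‖∑ i ∈ range (K - 1), (G (i + 1) - G i) * ∑ i ∈ range (i + 1), c i‖ ≤ K * (D * V) := by
    refine (norm_sum_le _ _).trans ?_
    calc ∑ i ∈ range (K - 1), ‖(G (i + 1) - G i) * ∑ i ∈ range (i + 1), c i‖
        ≤ ∑ i ∈ range (K - 1), D * V := by
          refine sum_le_sum fun i hi => ?_
          rw [mem_range] at hi
          rw [norm_mul]
          exact mul_le_mul (hD i (by omega)) (hV _ (by omega)) (norm_nonneg _) hD0
      _ = ((K - 1 : ℕ) : ℝ) * (D * V) := by rw [sum_const, card_range, nsmul_eq_mul]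
      _ ≤ K * (D * V) := by
          have : ((K - 1 : ℕ) : ℝ) ≤ K := by exact_mod_cast Nat.sub_le K 1
          gcongr
  calc _ ≤ S * V + K * (D * V) := add_le_add h1 h2
    _ = V * (S + K * D) := by ring

lemma sum_range_mul' {M : Type*} [AddCommMonoid M] (a b : ℕ) (f : ℕ → M) :
    ∑ n ∈ range (a * b), f n = ∑ i ∈ range b, ∑ h ∈ range a, f (a * i + h) := by
  induction b with
  | zero => simp
  | succ b ih => rw [Nat.mul_succ, sum_range_add, ih, sum_range_succ]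

lemma tsum_block {D : ℕ} [NeZero D] (a : ℤ → ℂ) (hs : Summable a) (B : ℤ → ℝ) (hB : Summable B)
    (h : ∀ c : ℤ, ‖∑ i ∈ range D, a (c * D + i)‖ ≤ B c) : ‖∑' j, a j‖ ≤ ∑' c, B c := by
  have hs' : Summable (fun p : ℤ × Fin D => a ((Int.divModEquiv D).symm p)) :=
    (Int.divModEquiv D).symm.summable_iff.2 hs
  rw [← (Int.divModEquiv D).symm.tsum_eq a, hs'.tsum_prod]
  refine tsum_of_norm_bounded hB.hasSum fun c => ?_
  rw [tsum_fintype]
  refine le_trans (le_of_eq ?_) (h c)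
  congr 1
  rw [Finset.sum_range]
  refine sum_congr rfl fun i _ => ?_
  rw [Int.divModEquiv_symm_apply]

lemma summ_W : Summable (fun c : ℤ => 1 / (1 + (c : ℝ) ^ 2)) := by
  have h1 : Summable (fun c : ℤ => 1 / (c : ℝ) ^ 2) := Real.summable_one_div_int_pow.2 (by norm_num)
  have h2 : Summable (fun c : ℤ => if c = 0 then (1 : ℝ) else 0) :=
    summable_of_ne_finset_zero (s := {0}) fun c hc => by
      rw [mem_singleton] at hc
      exact if_neg hc
  refine Summable.of_nonneg_of_le (fun c => by positivity) (fun c => ?_) (h1.add h2)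
  by_cases hc : c = 0
  · subst hc; simp
  · rw [if_neg hc, add_zero]
    have : (0 : ℝ) < (c : ℝ) ^ 2 := by positivity
    gcongr
    linarith

theorem poi_main : ∃ C : ℝ, 0 < C ∧ ∀ (Q : ℕ) [NeZero Q] (F : ℤ → ℂ),
    (∀ n k : ℤ, F (n + Q * k) = F n) → ∀ (M K : ℕ), 0 < M → 0 < K → ∀ V : ℝ,
    (∀ (h : ℤ) (J : ℕ), J ≤ K → ‖∑ k ∈ range J, FH Q F (h + M * k)‖ ≤ V) →
    ∀ (w : ℝ → ℂ) (B : ℝ), Good B w → ∀ Y : ℝ, 0 < Y →
    ‖∑ n ∈ Icc 1 ⌊4 * Y⌋₊, F (n : ℤ) * w ((n : ℝ) / Y)‖ ≤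
      C * B * (V / K) * (1 + K * M * Y / Q) ^ 2 := by
  set W : ℝ := ∑' c : ℤ, 1 / (1 + (c : ℝ) ^ 2) with hW
  have hW0 : 0 ≤ W := tsum_nonneg fun c => by positivity
  refine ⟨600 * (W + 1), by positivity, ?_⟩
  intro Q _ F hF M K hM hK V hV w B hw Y hY
  have hB : 0 ≤ B := (norm_nonneg _).trans (hw.b0 0)
  have hQ0 : (0 : ℝ) < Q := by exact_mod_cast NeZero.pos Q
  have hM0 : (0 : ℝ) < M := by exact_mod_cast hM
  have hK0 : (0 : ℝ) < K := by exact_mod_cast hK
  have hV0 : 0 ≤ V := by simpa using hV 0 0 (Nat.zero_le _)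
  set X : ℝ := K * M * Y / Q with hX
  have hX0 : 0 < X := by positivity
  set L : ℕ := ⌈1 / X⌉₊ with hL
  have hL1 : 1 ≤ L := Nat.one_le_iff_ne_zero.2 (Nat.ceil_pos.2 (by positivity)).ne'
  have hLX : 1 ≤ X * L := by
    have := Nat.le_ceil (1 / X)
    rw [← hL, div_le_iff₀ hX0] at this
    linarith
  have hLX2 : X * L ≤ 1 + X := by
    have := (Nat.ceil_lt_add_one (by positivity : (0 : ℝ) ≤ 1 / X)).le
    rw [← hL] at this
    calc X * L ≤ X * (1 / X + 1) := by gcongr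
      _ = 1 + X := by field_simp
  obtain ⟨hs, he⟩ := poisP F hF hw.tst hY
  rw [he, norm_mul]
  set D : ℕ := M * (K * L) with hD
  have hDpos : 0 < D := by positivity
  haveI : NeZero D := ⟨hDpos.ne'⟩
  obtain ⟨hg0, hg1⟩ := good_fh hw
  set v : ℝ := Y / Q with hv
  have hv0 : 0 < v := by positivity
  have hXv : X = K * M * v := by rw [hX, hv]; ring
  have hDv : (D : ℝ) * v = X * L := by rw [hXv, hD]; push_cast; ring
  have hloc : ∀ (c : ℤ) (ξ : ℝ), (c : ℝ) * (X * L) ≤ ξ → ξ ≤ (c + 1) * (X * L) →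
      200 * B / (1 + ξ ^ 2) ≤ 600 * B / (1 + (c : ℝ) ^ 2) := by
    intro c ξ h1 h2
    have h3 : 1 + (c : ℝ) ^ 2 ≤ 3 * (1 + ξ ^ 2) := by
      rcases le_or_gt 0 c with hc | hc
      · have hc' : (0 : ℝ) ≤ c := by exact_mod_cast hc
        have : (c : ℝ) ≤ ξ := by nlinarith
        nlinarith
      · have hc' : (c : ℝ) + 1 ≤ 0 := by exact_mod_cast hc
        have : ξ ≤ (c : ℝ) + 1 := by nlinarith
        nlinarith [sq_nonneg ((c : ℝ) + 3 / 2)]
    rw [div_le_div_iff₀ (by positivity) (by positivity)]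
    nlinarith
  have hinner : ∀ c : ℤ, ‖∑ i ∈ range D, FH Q F (c * D + i) * Fh w (((c * D + i : ℤ) : ℝ) * v)‖ ≤
      (M * L * V * (1 + X) * (600 * B)) * (1 / (1 + (c : ℝ) ^ 2)) := by
    intro c
    rw [hD, sum_range_mul', sum_comm]
    set S : ℝ := 600 * B / (1 + (c : ℝ) ^ 2) with hS
    have hS0 : 0 ≤ S := by positivity
    have hone : ∀ h ∈ range M, ∀ b ∈ range L, ‖∑ i ∈ range K,
        FH Q F (c * (M * (K * L) : ℕ) + (M * (K * b + i) + h : ℕ)) *
        Fh w (((c * (M * (K * L) : ℕ) + (M * (K * b + i) + h : ℕ) : ℤ) : ℝ) * v)‖ ≤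
        V * (S * (1 + X)) := by
      intro h hh b hb
      rw [mem_range] at hh hb
      set ξ : ℕ → ℝ := fun i => ((c * (M * (K * L) : ℕ) + (M * (K * b + i) + h : ℕ) : ℤ) : ℝ) * v
        with hξ
      have hrange : ∀ i < K, (c : ℝ) * (X * L) ≤ ξ i ∧ ξ i ≤ (c + 1) * (X * L) := by
        intro i hi
        have h1 : M * (K * b + i) + h < M * (K * L) := by
          have h2 : K * b + i < K * (b + 1) := by rw [mul_add]; omega
          have h3 : K * (b + 1) ≤ K * L := Nat.mul_le_mul_left _ hb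
          have h4 : M * (K * b + i) + h < M * (K * b + i + 1) := by
            rw [mul_add M (K * b + i) 1, mul_one]; omega
          exact h4.trans_le (Nat.mul_le_mul_left _ (by omega))
        have h5 : ((M * (K * b + i) + h : ℕ) : ℝ) ≤ D := by
          rw [hD]; exact_mod_cast h1.le
        have h6 : (0 : ℝ) ≤ ((M * (K * b + i) + h : ℕ) : ℝ) := Nat.cast_nonneg _
        have e1 : ξ i = (c : ℝ) * (D * v) + ((M * (K * b + i) + h : ℕ) : ℝ) * v := by
          simp only [hξ, hD]; push_cast; ring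
        rw [e1, hDv]
        constructor
        · have : 0 ≤ ((M * (K * b + i) + h : ℕ) : ℝ) * v := by positivity
          linarith
        · have : ((M * (K * b + i) + h : ℕ) : ℝ) * v ≤ D * v := by gcongr
          rw [hDv] at this
          linarith
      have hab := abel_le K (fun i => Fh w (ξ i))
        (fun i => FH Q F (c * (M * (K * L) : ℕ) + (M * (K * b + i) + h : ℕ)))
        (V := V) (S := S) (D := S * (M * v)) ?_ ?_ ?_ hS0 (by positivity)
      · have e2 : V * (S + K * (S * (M * v))) = V * (S * (1 + X)) := by rw [hXv]; ring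
        rw [e2] at hab
        refine le_trans (le_of_eq ?_) hab
        congr 1
        exact sum_congr rfl fun i _ => mul_comm _ _
      · intro J hJ
        have := hV (c * (M * (K * L) : ℕ) + (M * (K * b) + h : ℕ)) J hJ
        refine le_trans (le_of_eq ?_) this
        congr 1
        refine sum_congr rfl fun i _ => ?_
        congr 1
        push_cast
        ring
      · intro i hi
        exact (hg0 _).trans (hloc c _ (hrange i hi).1 (hrange i hi).2)
      · intro i hi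
        have hr1 := hrange i (by omega)
        have hr2 := hrange (i + 1) hi
        have hmv := Convex.norm_image_sub_le_of_norm_hasDerivWithin_le
          (f := Fh w) (f' := fun x => (hg1 x).choose) (C := S)
          (s := Set.Icc ((c : ℝ) * (X * L)) ((c + 1) * (X * L))) (x := ξ i) (y := ξ (i + 1))
          (fun x _ => (hg1 x).choose_spec.1.hasDerivWithinAt)
          (fun x hx => (hg1 x).choose_spec.2.trans (hloc c x hx.1 hx.2))
          (convex_Icc _ _) ⟨hr1.1, hr1.2⟩ ⟨hr2.1, hr2.2⟩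
        refine hmv.trans (le_of_eq ?_)
        congr 1
        have e3 : ξ (i + 1) - ξ i = M * v := by simp only [hξ]; push_cast; ring
        rw [e3, Real.norm_eq_abs, abs_of_pos (by positivity)]
    calc _ ≤ ∑ h ∈ range M, ∑ b ∈ range L, ‖∑ i ∈ range K,
        FH Q F (c * (M * (K * L) : ℕ) + (M * (K * b + i) + h : ℕ)) *
        Fh w (((c * (M * (K * L) : ℕ) + (M * (K * b + i) + h : ℕ) : ℤ) : ℝ) * v)‖ := by
          refine (norm_sum_le _ _).trans (sum_le_sum fun h _ => ?_)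
          rw [sum_range_mul']
          exact norm_sum_le _ _
      _ ≤ ∑ h ∈ range M, ∑ b ∈ range L, V * (S * (1 + X)) :=
          sum_le_sum fun h hh => sum_le_sum fun b hb => hone h hh b hb
      _ = M * (L * (V * (S * (1 + X)))) := by
          rw [sum_const, sum_const, card_range, card_range, nsmul_eq_mul, nsmul_eq_mul]
      _ = _ := by rw [hS]; ring
  have htot := tsum_block (D := D) (fun j : ℤ => FH Q F j * Fh w ((j : ℝ) * v)) hs _
    (summ_W.mul_left (M * L * V * (1 + X) * (600 * B))) hinner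
  rw [tsum_mul_left, ← hW] at htot
  have e5 : ‖((v : ℝ) : ℂ)‖ = v := by
    rw [Complex.norm_real, Real.norm_eq_abs, abs_of_pos hv0]
  rw [e5]
  calc v * ‖∑' j : ℤ, FH Q F j * Fh w ((j : ℝ) * v)‖
      ≤ v * (M * L * V * (1 + X) * (600 * B) * W) := by gcongr
    _ = 600 * W * B * (V / K) * ((X * L) * (1 + X)) := by rw [hXv]; field_simp
    _ ≤ 600 * (W + 1) * B * (V / K) * ((1 + X) * (1 + X)) := by
        have : 0 ≤ V / K := by positivity
        gcongr
        linarith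
    _ = _ := by rw [sq]

end Pool.Agent.Y766.R3
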