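import Pool.Agent.Y766.R3.DB
import Pool.Agent.Y766.R3.Stm

/-!
The Fourier transform of `χ(n + P) conj χ(n)` modulo `p^r` in terms of the complete sums `KL`.
-/

set_option autoImplicit false

namespace Pool.Agent.Y766.R3

open Finset
open Pool.Agent.H442R2

lemma isUnit_int {p r : ℕ} (hp : p.Prime) (hr : 1 ≤ r) (n : ℤ) :
    IsUnit (n : ZMod (p ^ r)) ↔ ¬ (p : ℤ) ∣ n := by
  rw [ZMod.coe_int_isUnit_iff_isCoprime]
  push_cast
  rw [IsCoprime.pow_left_iff (by omega), Prime.coprime_iff_not_dvd (Nat.prime_iff_prime_int.1 hp)]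

lemma eq_e {Q : ℕ} [NeZero Q] (j : ℤ) :
    (ZMod.stdAddChar : AddChar (ZMod Q) ℂ) (j : ZMod Q) = KF.e ((j : ℝ) / Q) := by
  rw [ZMod.stdAddChar_coe]
  unfold KF.e
  congr 1
  push_cast
  ring

lemma eu_eq (x : ℝ) : eu x = KF.e x := by
  unfold eu KF.e
  congr 1
  push_cast
  ring

lemma sum_units {Q : ℕ} [NeZero Q] (f : ZMod Q → ℂ) :
    ∑ x : ZMod Q, (open Classical in if IsUnit x then f x else 0) = ∑ x : (ZMod Q)ˣ, f x := by
  classical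
  rw [← sum_filter]
  symm
  refine sum_bij (fun x _ => (x : ZMod Q)) ?_ ?_ ?_ ?_
  · intro x _
    rw [mem_filter]
    exact ⟨mem_univ _, x.isUnit⟩
  · intro x _ y _ h
    exact Units.ext h
  · intro x hx
    rw [mem_filter] at hx
    exact ⟨hx.2.unit, mem_univ _, rfl⟩
  · intro x _
    rfl

lemma sum_range_zmod {Q : ℕ} [NeZero Q] (F : ZMod Q → ℂ) :
    ∑ n ∈ range Q, F ((n : ℕ) : ZMod Q) = ∑ x : ZMod Q, F x := by
  rw [Finset.sum_range]
  exact Pool.Agent.Y766.sum_fin_zmod F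

/-- the Fourier transform of the product in terms of complete sums over units -/
lemma FH_eval {p r : ℕ} [NeZero (p ^ r)] (hp : p.Prime) (hp2 : p ≠ 2) (hr1 : 1 ≤ r)
    (F : ℤ → ℂ) (Φ : ZMod (p ^ r) → ℂ) (l P : ℤ)
    (hl : ¬ (p : ℤ) ∣ l) (hpP : (p : ℤ) ∣ P)
    (hΦ : ∀ n : ℤ, F n = if (p : ℤ) ∣ n then 0 else
      Φ ((l : ZMod (p ^ r)) * ((2 * n + P : ℤ) : ZMod (p ^ r))⁻¹))
    (A : ZMod (p ^ r)) (i2 : ℤ) (hi2 : ((2 * i2 : ℤ) : ZMod (p ^ r)) = 1) (j : ℤ) :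
    FH (p ^ r) F j =
      KF.e (((-(j * P * i2) : ℤ) : ℝ) / (p ^ r : ℕ)) *
        KL (fun y => Φ y * ZMod.stdAddChar (-(A * y))) A (((l * i2 : ℤ) : ZMod (p ^ r)) * j) := by
  classical
  have hp2' : ¬ (p : ℤ) ∣ 2 := by
    intro h
    have h2 : p ∣ 2 := by exact_mod_cast h
    have := (Nat.prime_dvd_prime_iff_eq hp Nat.prime_two).1 h2
    exact hp2 this
  have hpZ : Prime (p : ℤ) := Nat.prime_iff_prime_int.1 hp
  have hunit : ∀ x : ZMod (p ^ r), IsUnit x → IsUnit (2 * x + (P : ZMod (p ^ r))) := by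
    intro x hx
    obtain ⟨n, rfl⟩ : ∃ n : ℤ, (n : ZMod (p ^ r)) = x := ⟨x.val, by simp⟩
    rw [isUnit_int hp hr1] at hx
    have : (2 * (n : ZMod (p ^ r)) + (P : ZMod (p ^ r))) = ((2 * n + P : ℤ) : ZMod (p ^ r)) := by
      push_cast; ring
    rw [this, isUnit_int hp hr1]
    intro h
    have h2 : (p : ℤ) ∣ 2 * n := (dvd_add_left hpP).1 h
    rcases hpZ.dvd_or_dvd h2 with h3 | h3
    · exact hp2' h3
    · exact hx h3
  have hlu : IsUnit (l : ZMod (p ^ r)) := (isUnit_int hp hr1 l).2 hl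
  -- step 1
  have e1 : FH (p ^ r) F j = ∑ x : ZMod (p ^ r), (if IsUnit x then
      Φ ((l : ZMod (p ^ r)) * (2 * x + (P : ZMod (p ^ r)))⁻¹) *
        (ZMod.stdAddChar : AddChar (ZMod (p ^ r)) ℂ) ((j : ZMod (p ^ r)) * x) else 0) := by
    unfold FH
    rw [← sum_range_zmod (fun x : ZMod (p ^ r) => (if IsUnit x then
      Φ ((l : ZMod (p ^ r)) * (2 * x + (P : ZMod (p ^ r)))⁻¹) *
        (ZMod.stdAddChar : AddChar (ZMod (p ^ r)) ℂ) ((j : ZMod (p ^ r)) * x) else 0))]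
    refine sum_congr rfl fun n _ => ?_
    have h1 := isUnit_int hp hr1 (n : ℤ)
    rw [Int.cast_natCast] at h1
    rw [hΦ]
    by_cases hn : (p : ℤ) ∣ (n : ℤ)
    · rw [if_pos hn, if_neg (by rw [h1]; simpa using hn), zero_mul]
    · rw [if_neg hn, if_pos (h1.2 hn)]
      have e2 : ((2 * (n : ℤ) + P : ℤ) : ZMod (p ^ r)) = 2 * (n : ZMod (p ^ r)) + (P : ZMod (p ^ r)) := by
        push_cast; ring
      have e3 : (j : ZMod (p ^ r)) * (n : ZMod (p ^ r)) = ((j * n : ℤ) : ZMod (p ^ r)) := by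
        push_cast; ring
      rw [e2, e3, eq_e]
      congr 2
      push_cast
      ring
  rw [e1, sum_units]
  -- reindexing
  set σ : (ZMod (p ^ r))ˣ → (ZMod (p ^ r))ˣ := fun x => hlu.unit * (hunit x x.isUnit).unit⁻¹ with hσ
  have hσv : ∀ x, (σ x : ZMod (p ^ r)) = (l : ZMod (p ^ r)) * (2 * (x : ZMod (p ^ r)) + (P : ZMod (p ^ r)))⁻¹ := by
    intro x
    simp only [hσ, Units.val_mul, IsUnit.unit_spec]
    congr 1
    rw [← ZMod.inv_coe_unit, IsUnit.unit_spec]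
  have hσi : ∀ x, ((((σ x)⁻¹ : (ZMod (p ^ r))ˣ) : ZMod (p ^ r))) * l = 2 * (x : ZMod (p ^ r)) + (P : ZMod (p ^ r)) := by
    intro x
    have h1 : (σ x)⁻¹ = (hunit x x.isUnit).unit * hlu.unit⁻¹ := by
      simp only [hσ]; rw [mul_inv_rev, inv_inv]
    rw [h1, Units.val_mul, IsUnit.unit_spec, mul_assoc]
    have h2 : ((hlu.unit⁻¹ : (ZMod (p ^ r))ˣ) : ZMod (p ^ r)) * (l : ZMod (p ^ r)) = 1 := by
      have := hlu.unit.inv_mul
      rwa [IsUnit.unit_spec] at this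
    rw [h2, mul_one]
  have hi2' : (2 : ZMod (p ^ r)) * (i2 : ZMod (p ^ r)) = 1 := by
    have := hi2; push_cast at this; exact this
  have hinv : ∀ x : (ZMod (p ^ r))ˣ, (x : ZMod (p ^ r)) =
      ((((σ x)⁻¹ : (ZMod (p ^ r))ˣ) : ZMod (p ^ r)) * l - P) * i2 := by
    intro x
    rw [hσi]
    calc (x : ZMod (p ^ r)) = (2 * i2) * x := by rw [hi2', one_mul]
      _ = _ := by ring
  have hσinj : Function.Injective σ := by
    intro x y hxy
    apply Units.ext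
    rw [hinv x, hinv y, hxy]
  have hσbij : Function.Bijective σ := Finite.injective_iff_bijective.1 hσinj
  set G : (ZMod (p ^ r))ˣ → ℂ := fun y => Φ y * (ZMod.stdAddChar : AddChar (ZMod (p ^ r)) ℂ)
    ((j : ZMod (p ^ r)) * ((((y⁻¹ : (ZMod (p ^ r))ˣ) : ZMod (p ^ r)) * l - P) * i2)) with hG
  have e4 : ∑ x : (ZMod (p ^ r))ˣ, Φ ((l : ZMod (p ^ r)) * (2 * (x : ZMod (p ^ r)) + (P : ZMod (p ^ r)))⁻¹) *
        (ZMod.stdAddChar : AddChar (ZMod (p ^ r)) ℂ) ((j : ZMod (p ^ r)) * x) =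
      ∑ x : (ZMod (p ^ r))ˣ, G (σ x) := by
    refine sum_congr rfl fun x _ => ?_
    simp only [hG]
    rw [← hinv x, hσv x]
  rw [e4, hσbij.sum_comp G]
  unfold KL
  rw [mul_sum]
  refine sum_congr rfl fun y _ => ?_
  simp only [hG]
  have e5 : (j : ZMod (p ^ r)) * ((((y⁻¹ : (ZMod (p ^ r))ˣ) : ZMod (p ^ r)) * l - P) * i2) =
      ((-(j * P * i2) : ℤ) : ZMod (p ^ r)) + (-(A * (y : ZMod (p ^ r))) + (A * (y : ZMod (p ^ r)) +
        ((l * i2 : ℤ) : ZMod (p ^ r)) * j * ((y⁻¹ : (ZMod (p ^ r))ˣ) : ZMod (p ^ r)))) := by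
    push_cast
    ring
  rw [e5, AddChar.map_add_eq_mul, AddChar.map_add_eq_mul, eq_e]
  ring

end Pool.Agent.Y766.R3
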