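import Pool.Agent.Y766.R3.TA

/-!
Incomplete sums of `χ(n + P) conj χ(n)`: the Fourier side.
-/

set_option autoImplicit false

namespace Pool.Agent.Y766.R3

open Finset Polynomial
open Pool.Agent.H442R2 Pool.Agent.H442R2.TSM
open Pool.Agent.Y766

lemma e_norm (x : ℝ) : ‖KF.e x‖ = 1 := KF.norm_e x

/-- the data attached to `χ(n + P) conj χ(n)` -/
lemma get_data (hPhi : S_PHI) {p ν m u : ℕ} [NeZero (p ^ (ν - m))] (hp : p.Prime) (hp2 : p ≠ 2)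
    (hm : 1 ≤ m) (hmν : m < ν) (hu1 : ν ≤ u + 3 * m) (hu2 : u < ν - m)
    {χ : DirichletCharacter ℂ (p ^ ν)} (hχ : χ.IsPrimitive) {l : ℤ} (hl : ¬ (p : ℤ) ∣ l) :
    (∀ n k : ℤ, FF χ ((p : ℤ) ^ m * l) (n + (p ^ (ν - m) : ℕ) * k) = FF χ ((p : ℤ) ^ m * l) n) ∧
    ∃ (Ψ : ZMod (p ^ (ν - m)) → ℂ) (A L : ZMod (p ^ (ν - m))) (d : ℤ), (∀ y, ‖Ψ y‖ = 1) ∧
      (∀ y z : ZMod (p ^ (ν - m)), Ψ (y + (p : ZMod (p ^ (ν - m))) ^ u * z) = Ψ y) ∧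
      IsUnit A ∧ IsUnit L ∧
      ∀ j : ℤ, FH (p ^ (ν - m)) (FF χ ((p : ℤ) ^ m * l)) j =
        KF.e (((-(j * d) : ℤ) : ℝ) / (p ^ (ν - m) : ℕ)) * KL Ψ A (L * j) := by
  obtain ⟨Φ, hΦ1, hΦ2, hΦ3⟩ := hPhi p ν m hp hp2 hm hmν χ hχ
  obtain ⟨A, hA, hΦ4⟩ := hΦ3 u hu1 hu2
  have hpZ : Prime (p : ℤ) := Nat.prime_iff_prime_int.1 hp
  have hr1 : 1 ≤ ν - m := by omega
  have hodd : Odd (p ^ (ν - m)) := (hp.odd_of_ne_two hp2).pow
  obtain ⟨c, hc⟩ := hodd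
  have hi2 : ((2 * ((c : ℤ) + 1) : ℤ) : ZMod (p ^ (ν - m))) = 1 := by
    have e1 : (2 * ((c : ℤ) + 1) : ℤ) = ((p ^ (ν - m) : ℕ) : ℤ) + 1 := by
      rw [hc]; push_cast; ring
    rw [e1]
    push_cast
    have : ((p ^ (ν - m) : ℕ) : ZMod (p ^ (ν - m))) = 0 := ZMod.natCast_self _
    push_cast at this
    rw [this, zero_add]
  constructor
  · intro n k
    rw [hΦ2, hΦ2]
    have h1 : (p : ℤ) ∣ (p ^ (ν - m) : ℕ) * k := by
      refine Dvd.dvd.mul_right ?_ _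
      push_cast
      exact dvd_pow_self _ (by omega)
    have h2 : (p : ℤ) ∣ n + (p ^ (ν - m) : ℕ) * k ↔ (p : ℤ) ∣ n := dvd_add_left h1
    by_cases hn : (p : ℤ) ∣ n
    · rw [if_pos hn, if_pos (h2.2 hn)]
    · rw [if_neg hn, if_neg (fun h => hn (h2.1 h))]
      congr 3
      have h3 : ((p ^ (ν - m) : ℕ) : ZMod (p ^ (ν - m))) = 0 := ZMod.natCast_self _
      push_cast at h3 ⊢
      rw [h3]
      ring
  · refine ⟨fun y => Φ y * ZMod.stdAddChar (-(A * y)), A, (((l * ((c : ℤ) + 1) : ℤ)) : ZMod (p ^ (ν - m))),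
      (p : ℤ) ^ m * l * ((c : ℤ) + 1), ?_, ?_, hA, ?_, ?_⟩
    · intro y
      simp only
      rw [norm_mul, hΦ1, one_mul]
      exact AddChar.norm_apply _ _
    · intro y z
      simp only
      rw [hΦ4]
      have e1 : -(A * (y + (p : ZMod (p ^ (ν - m))) ^ u * z)) =
          -(A * y) + -(A * ((p : ZMod (p ^ (ν - m))) ^ u * z)) := by ring
      rw [e1, AddChar.map_add_eq_mul]
      have e2 : (ZMod.stdAddChar : AddChar (ZMod (p ^ (ν - m))) ℂ) (A * ((p : ZMod (p ^ (ν - m))) ^ u * z)) *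
          (ZMod.stdAddChar : AddChar (ZMod (p ^ (ν - m))) ℂ) (-(A * ((p : ZMod (p ^ (ν - m))) ^ u * z))) = 1 := by
        rw [← AddChar.map_add_eq_mul, add_neg_cancel, AddChar.map_zero_eq_one]
      calc _ = Φ y * (ZMod.stdAddChar : AddChar (ZMod (p ^ (ν - m))) ℂ) (-(A * y)) *
            ((ZMod.stdAddChar : AddChar (ZMod (p ^ (ν - m))) ℂ) (A * ((p : ZMod (p ^ (ν - m))) ^ u * z)) *
          (ZMod.stdAddChar : AddChar (ZMod (p ^ (ν - m))) ℂ) (-(A * ((p : ZMod (p ^ (ν - m))) ^ u * z)))) := by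
              ring
        _ = _ := by rw [e2, mul_one]
    · push_cast
      refine IsUnit.mul ((isUnit_int hp hr1 l).2 hl) ?_
      have h4 : (2 : ZMod (p ^ (ν - m))) * ((c : ZMod (p ^ (ν - m))) + 1) = 1 := by
        have := hi2; push_cast at this; exact this
      exact IsUnit.of_mul_eq_one _ (by rw [mul_comm]; exact h4)
    · intro j
      have hpP : (p : ℤ) ∣ (p : ℤ) ^ m * l := Dvd.dvd.mul_right (dvd_pow_self _ (by omega)) _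
      rw [FH_eval hp hp2 hr1 _ Φ l ((p : ℤ) ^ m * l) hl hpP (hΦ2 l) A ((c : ℤ) + 1) hi2 j]
      congr 3
      push_cast
      ring

/-- the leading coefficient in lowest terms -/
lemma lead {p : ℕ} (hp : p.Prime) (hp2 : p ≠ 2) (b : ℤ) (hb : ¬ (p : ℤ) ∣ b) (R : ℕ) (hR : 1 ≤ R) :
    ∃ (a : ℤ) (R' : ℕ), 28 * (b : ℝ) / (p : ℝ) ^ R = (a : ℝ) / (p ^ R' : ℕ) ∧
      Int.gcd a (p ^ R' : ℕ) = 1 ∧ R ≤ R' + 1 ∧ R' ≤ R := by
  have hpZ : Prime (p : ℤ) := Nat.prime_iff_prime_int.1 hp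
  have hcop : ∀ (a : ℤ) (k : ℕ), ¬ (p : ℤ) ∣ a → Int.gcd a (p ^ k : ℕ) = 1 := by
    intro a k ha
    rw [← Int.isCoprime_iff_gcd_eq_one]
    push_cast
    exact IsCoprime.pow_right ((hpZ.coprime_iff_not_dvd).2 ha).symm
  have hsm : ∀ c : ℕ, p ∣ 2 ^ c → False := by
    intro c h
    have := hp.dvd_of_dvd_pow h
    exact hp2 ((Nat.prime_dvd_prime_iff_eq hp Nat.prime_two).1 this)
  by_cases h7 : p = 7
  · subst h7
    refine ⟨4 * b, R - 1, ?_, hcop _ _ ?_, by omega, by omega⟩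
    · obtain ⟨S, rfl⟩ : ∃ S, R = S + 1 := ⟨R - 1, by omega⟩
      rw [Nat.add_sub_cancel]
      push_cast
      rw [pow_succ]
      field_simp
      ring
    · intro h
      rcases hpZ.dvd_or_dvd h with h1 | h1
      · norm_num at h1
      · exact hb h1
  · refine ⟨28 * b, R, ?_, hcop _ _ ?_, by omega, le_rfl⟩
    · push_cast; ring
    · intro h
      rcases hpZ.dvd_or_dvd h with h1 | h1
      · have h2 : p ∣ 2 ^ 2 * 7 := by
          have : ((p : ℕ) : ℤ) ∣ ((28 : ℕ) : ℤ) := by exact_mod_cast h1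
          exact_mod_cast this
        rcases (hp.dvd_mul).1 h2 with h3 | h3
        · exact hsm 2 h3
        · exact h7 ((Nat.prime_dvd_prime_iff_eq hp (by norm_num)).1 h3)
      · exact hb h1

/-- blocks in the Fourier sums, `3m < ν` -/
lemma FH_blocks (hPhi : S_PHI) (hK : S_KLO) {p ν m E κ : ℕ} [NeZero (p ^ (ν - m))] (hp : p.Prime)
    (hp2 : p ≠ 2) {CW ε : ℝ} (hCW : 0 < CW)
    (hW : ∀ (K q : ℕ) (a : ℤ), 1 ≤ K → K ≤ q → q ≤ K ^ 4 → Int.gcd a q = 1 → ∀ P : ℝ[X],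
      P.natDegree ≤ 5 → P.coeff 5 = (a : ℝ) / q → ∀ J ≤ K,
      ‖∑ k ∈ range J, eu (P.eval (k : ℝ))‖ ≤ CW * (K : ℝ) ^ (15 / 16 + ε))
    (hm : 1 ≤ m) (h3 : 3 * m < ν) (h5 : 2 * (ν - 3 * m) ≤ (ν - m) + 1) (hE1 : 1 ≤ E)
    (hE2 : ν - 3 * m ≤ E) (hE3 : ν - m ≤ 6 * E) (hE4 : κ + 1 + 5 * E ≤ ν - m)
    (hE5 : (ν - m) ≤ 4 * κ + 5 * E)
    {χ : DirichletCharacter ℂ (p ^ ν)} (hχ : χ.IsPrimitive) {l : ℤ} (hl : ¬ (p : ℤ) ∣ l)
    (h : ℤ) (J : ℕ) (hJ : J ≤ p ^ κ) :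
    ‖∑ k ∈ range J, FH (p ^ (ν - m)) (FF χ ((p : ℤ) ^ m * l)) (h + (p ^ E : ℕ) * k)‖ ≤
      2 * (p : ℝ) ^ ((ν - m + 1) / 2) * (CW * ((p ^ κ : ℕ) : ℝ) ^ (15 / 16 + ε)) := by
  have hmν : m < ν := by omega
  obtain ⟨-, Ψ, A, L, d, hΨ1, hΨ2, hA, hL, hFH⟩ :=
    get_data hPhi (u := ν - 3 * m) hp hp2 hm hmν (by omega) (by omega) hχ hl
  obtain ⟨-, k2, k3⟩ := hK p (ν - m) (ν - 3 * m) hp hp2 (by omega) h5 Ψ hΨ1 hΨ2 A L hA hL
  have hp0 : (0 : ℝ) < p := by exact_mod_cast hp.pos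
  by_cases hh : (p : ℤ) ∣ h
  · have : ∑ k ∈ range J, FH (p ^ (ν - m)) (FF χ ((p : ℤ) ^ m * l)) (h + (p ^ E : ℕ) * k) = 0 := by
      refine sum_eq_zero fun k _ => ?_
      rw [hFH, k2 _ ?_, mul_zero]
      refine dvd_add hh (Dvd.dvd.mul_right ?_ _)
      push_cast
      exact dvd_pow_self _ (by omega)
    rw [this, norm_zero]
    positivity
  obtain ⟨n, ρ, b, Q, hn, hQ, hKL⟩ := k3 E h hE1 hE2 hE3 hh
  have hd : ∀ k : ℤ, KF.e (((-((h + (p : ℤ) ^ E * k) * d) : ℤ) : ℝ) / (p ^ (ν - m) : ℕ)) =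
      eu ((C (-(h * d : ℝ) / (p ^ (ν - m) : ℕ)) +
        C (-((p : ℝ) ^ E * d) / (p ^ (ν - m) : ℕ)) * X : ℝ[X]).eval (k : ℝ)) := by
    intro k
    rw [eu_eq]
    congr 1
    simp only [eval_add, eval_mul, eval_C, eval_X]
    push_cast
    ring
  set Z : ℝ[X] := C (-(h * d : ℝ) / (p ^ (ν - m) : ℕ)) +
        C (-((p : ℝ) ^ E * d) / (p ^ (ν - m) : ℕ)) * X with hZ
  have hZd : Z.natDegree ≤ 5 := by
    rw [hZ]
    refine (natDegree_add_le _ _).trans (max_le ?_ ?_)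
    · rw [natDegree_C]; norm_num
    · exact (natDegree_C_mul_le _ _).trans (natDegree_X_le.trans (by norm_num))
  have hZc : Z.coeff 5 = 0 := by
    rw [hZ, coeff_add, coeff_C_of_ne_zero (by norm_num), coeff_C_mul, coeff_X_of_ne_one (by norm_num)]
    simp
  have hadd : ∀ x y : ℝ, eu (x + y) = eu x * eu y := by
    intro x y
    rw [eu_eq, eu_eq, eu_eq, KF.e_add]
  have e1 : ∑ k ∈ range J, FH (p ^ (ν - m)) (FF χ ((p : ℤ) ^ m * l)) (h + (p ^ E : ℕ) * k) =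
      ∑ i : Fin n, ρ i * ∑ k ∈ range J, eu ((Q i + Z).eval (k : ℝ)) := by
    simp_rw [mul_sum]
    rw [sum_comm]
    refine sum_congr rfl fun k _ => ?_
    rw [hFH]
    have e2 : (h + (p ^ E : ℕ) * (k : ℤ)) = h + (p : ℤ) ^ E * (k : ℤ) := by push_cast; ring
    rw [e2, hKL, hd, mul_sum]
    refine sum_congr rfl fun i _ => ?_
    have e3 : (Q i + Z).eval (k : ℝ) = (Q i).eval (k : ℝ) + Z.eval (k : ℝ) := eval_add
    rw [e3, hadd, Int.cast_natCast]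
    ring
  rw [e1]
  have hone : ∀ i : Fin n, ‖ρ i * ∑ k ∈ range J, eu ((Q i + Z).eval (k : ℝ))‖ ≤
      CW * ((p ^ κ : ℕ) : ℝ) ^ (15 / 16 + ε) := by
    intro i
    obtain ⟨q1, q2, q3, q4⟩ := hQ i
    rw [norm_mul, q1, one_mul]
    obtain ⟨R, hR⟩ : ∃ R, ν - m = 5 * E + R := ⟨ν - m - 5 * E, by omega⟩
    obtain ⟨a, R', l1, l2, l3, l4⟩ := lead hp hp2 (b i) q2 R (by omega)
    refine hW (p ^ κ) (p ^ R') a (Nat.one_le_pow _ _ hp.pos) (Nat.pow_le_pow_right hp.pos (by omega))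
      ?_ l2 (Q i + Z) ?_ ?_ J hJ
    · rw [← pow_mul]
      exact Nat.pow_le_pow_right hp.pos (by omega)
    · exact (natDegree_add_le _ _).trans (max_le q3 hZd)
    · rw [coeff_add, hZc, add_zero, q4, ← l1, hR, pow_add]
      have : (p : ℝ) ^ (5 * E) ≠ 0 := by positivity
      field_simp
  refine (norm_sum_le _ _).trans ?_
  calc ∑ i : Fin n, ‖ρ i * ∑ k ∈ range J, eu ((Q i + Z).eval (k : ℝ))‖
      ≤ ∑ i : Fin n, CW * ((p ^ κ : ℕ) : ℝ) ^ (15 / 16 + ε) := sum_le_sum fun i _ => hone i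
    _ = (n : ℝ) * (CW * ((p ^ κ : ℕ) : ℝ) ^ (15 / 16 + ε)) := by
        rw [sum_const, card_univ, Fintype.card_fin, nsmul_eq_mul]
    _ ≤ _ := by
        have : (n : ℝ) ≤ 2 * (p : ℝ) ^ ((ν - m + 1) / 2) := by exact_mod_cast hn
        gcongr

end Pool.Agent.Y766.R3
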